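import Pool.Agent.H.MP_e6550d_al.B

namespace Pool.Agent.H.MP_e6550d_al

open Monoid

variable {G ι : Type} [Group G] (X : Finset G) (H : ι → Subgroup G)

abbrev Fr := Coprod (FreeGroup X) (CoprodI fun i => H i)

def ep : Fr X H →* G := Coprod.lift (FreeGroup.lift Subtype.val) (CoprodI.lift fun i => (H i).subtype)

def Le (s : Fr X H) : Prop := (∃ x, s = .inl (.of x) ∨ s = (Coprod.inl (.of x))⁻¹) ∨ ∃ i h, s = .inr (.of (i := i) h)

inductive Kc
  | e (g : G) (x : X)
  | c (P : Σ i, G ⧸ H i)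

instance : MulAction G (Kc X H) where
  smul g P := match P with
    | .e a x => .e (g * a) x
    | .c P => .c (g • P)
  one_smul P := by cases P; exacts [congrArg (Kc.e · _) (one_mul _), congrArg Kc.c (one_smul ..)]
  mul_smul a b P := by cases P; exacts [congrArg (Kc.e · _) (mul_assoc ..), congrArg Kc.c (mul_smul ..)]

def mm (g : G) : Kc X H → Prop
  | .e a x => g = a ∨ g = a * x
  | .c P => (g : G ⧸ H P.1) = P.2

def sh : G →* MulAut (G → Multiplicative ℤ) where
  toFun g := { toFun ψ x := ψ (x * g), invFun ψ x := ψ (x * g⁻¹), left_inv ψ := by simp, right_inv ψ := by simp, map_mul' _ _ := rfl }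
  map_one' := by ext; simp
  map_mul' g h := by ext; simp [mul_assoc]

variable {X H}

def th (ω : Kc X H → ℤ) (f : G → ℤ) : Fr X H →* (G → Multiplicative ℤ) ⋊[sh] G :=
  Coprod.lift (FreeGroup.lift fun x => ⟨fun g => .ofAdd (ω (.e g x) * (f (g * x) - f g)), x⟩) (CoprodI.lift fun i => .mk'
    (fun h => ⟨fun g => .ofAdd (ω (.c ⟨i, g⟩) * (f (g * h) - f g)), h⟩) fun a b => by
      ext g
      · change ω (.c ⟨i, g⟩) * (f (g * (a * b)) - f g) = ω (.c ⟨i, g⟩) * (f (g * a) - f g) + ω (.c ⟨i, (g * a : G)⟩) * (f (g * a * b) - f (g * a))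
        rw [QuotientGroup.mk_mul_of_mem g a.2, mul_assoc]
        ring
      · rfl)

def ps (ω : Kc X H → ℤ) (f : G → ℤ) (s : Fr X H) (g : G) : ℤ := ((th ω f s).left g).toAdd

theorem th_right (ω f) (s : Fr X H) : (th ω f s).right = ep X H s :=
  DFunLike.congr_fun (show SemidirectProduct.rightHom.comp (th ω f) = ep X H from
    Coprod.hom_ext (FreeGroup.ext_hom _ _ fun x => by simp [th, ep]) (CoprodI.ext_hom _ _ fun i => by ext; simp [th, ep])) s

theorem ps_mul (ω f) (s t : Fr X H) (g) : ps ω f (s * t) g = ps ω f s g + ps ω f t (g * ep X H s) := by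
  rw [ps, map_mul, SemidirectProduct.mul_left, th_right]
  rfl

theorem ps_x (ω f) (x : X) (g) : ps ω f (.inl (.of x) : Fr X H) g = ω (.e g x) * (f (g * x) - f g) := by
  rw [ps, th, Coprod.lift_apply_inl, FreeGroup.lift_apply_of]
  rfl

theorem ps_h (ω f) (i) (h : H i) (g) : ps ω f (.inr (.of h) : Fr X H) g = ω (.c ⟨i, g⟩) * (f (g * h) - f g) := rfl

theorem ps_one (ω : Kc X H → ℤ) (f g) : ps ω f 1 g = 0 := by simp [ps]

theorem ps_inv (ω f) (s : Fr X H) (g) : ps ω f s⁻¹ g = -ps ω f s (g * (ep X H s)⁻¹) := by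
  have := ps_mul ω f s⁻¹ s g
  rw [inv_mul_cancel, ps_one, map_inv] at this
  linarith

theorem mm_act (g : G) {x} {P : Kc X H} (h : mm X H x P) : mm X H (g * x) (g • P) := by
  cases P with
  | e a y => exact h.imp (congrArg _) fun h : x = a * y => h ▸ (mul_assoc ..).symm
  | c P => exact congrArg (g • ·) h

theorem Le.step {s} (h : Le X H s) (u : G) : ∃ P, mm X H u P ∧ mm X H (u * ep X H s) P ∧
    ∀ g ω f, ps ω f s (g * u) = ω (g • P) * (f (g * (u * ep X H s)) - f (g * u)) := by
  rcases h with ⟨x, rfl | rfl⟩ | ⟨i, h, rfl⟩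
  · exact ⟨.e u x, .inl rfl, .inr (by simp [ep]), fun g ω f => by simp [ps_x, ep, mul_assoc]; exact .inl rfl⟩
  · refine ⟨.e (u * (x : G)⁻¹) x, .inr (by simp), .inl (by simp [ep]), fun g ω f => ?_⟩
    rw [ps_inv]
    simp [ps_x, ep, mul_assoc, ← mul_neg]
    exact .inl rfl
  · exact ⟨.c ⟨i, u⟩, rfl, by simp [mm, ep], fun g ω f => by simp [ps_h, ep, mul_assoc]; exact .inl rfl⟩

theorem w2p (W : List (Fr X H)) (h : ∀ s ∈ W, Le X H s) (u : G) : ∃ p, Pa (mm X H) u (u * ep X H W.prod) p ∧ p.length = W.length ∧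
    ∀ g ω f, ps ω f W.prod (g * u) = ev ω f (tl g p) := by
  induction W generalizing u with
  | nil => exact ⟨[], by simpa using .nil u, rfl, fun g ω f => ps_one ..⟩
  | cons s W ih =>
    obtain ⟨P, a, b, c⟩ := (h s (.head _)).step u
    obtain ⟨p, i, j, k⟩ := ih (fun t l => h t (.tail _ l)) (u * ep X H s)
    exact ⟨_, by simpa [mul_assoc] using Pa.cons a b i, by simp [j], fun g ω f => by
      rw [List.prod_cons, ps_mul, c, mul_assoc, k]; simp [tl]⟩

theorem p2w {u w p} (h : Pa (mm X H) u w p) : ∃ W : List (Fr X H), (∀ s ∈ W, Le X H s) ∧ W.length ≤ p.length ∧ u * ep X H W.prod = w ∧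
    ∀ ω f, ps ω f W.prod u = ev ω f p := by
  induction h with
  | nil => exact ⟨[], by simp, le_rfl, by simp, fun ω f => ps_one ..⟩
  | @cons u P v w p a b _ ih =>
    obtain ⟨W, i, j, rfl, k⟩ := ih
    by_cases e : u = v
    · exact ⟨W, i, by simp; omega, by rw [e], fun ω f => by simp [e, k]⟩
    obtain ⟨s, s1, rfl, s3⟩ : ∃ s, Le X H s ∧ u * ep X H s = v ∧ ∀ ω f, ps ω f s u = ω P * (f v - f u) := by
      cases P with
      | e g x =>
        rcases a with rfl | rfl <;> rcases b with rfl | rfl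
        · exact (e rfl).elim
        · exact ⟨_, .inl ⟨x, .inl rfl⟩, by simp [ep], fun ω f => ps_x ..⟩
        · exact ⟨_, .inl ⟨x, .inr rfl⟩, by simp [ep], fun ω f => by rw [ps_inv]; simp [ps_x, ep, ← mul_neg]⟩
        · exact (e rfl).elim
      | c P =>
        obtain ⟨i, P⟩ := P
        obtain rfl : (u : G ⧸ H i) = P := a
        exact ⟨_, .inr ⟨i, ⟨u⁻¹ * v, QuotientGroup.eq.1 b.symm⟩, rfl⟩, by simp [ep], fun ω f => by simp [ps_h]⟩
    exact ⟨s :: W, List.forall_mem_cons.2 ⟨s1, i⟩, by simpa, by simp [mul_assoc], fun ω f => by rw [List.prod_cons, ps_mul, s3, k, ev_cons]⟩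

theorem ex_w (s : Fr X H) : ∃ W : List (Fr X H), (∀ s ∈ W, Le X H s) ∧ W.prod = s := by
  refine Submonoid.exists_list_of_mem_closure (s := {s | Le X H s}) ?_
  induction s using Coprod.induction_on with
  | inl x =>
    induction x using FreeGroup.induction_on with
    | C1 => simp
    | of x => exact Submonoid.subset_closure (.inl ⟨x, .inl rfl⟩)
    | inv_of x => exact Submonoid.subset_closure (.inl ⟨x, .inr (map_inv ..)⟩)
    | mul x y a b => rw [map_mul]; exact mul_mem a b
  | inr x =>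
    induction x using CoprodI.induction_on with
    | one => simp
    | of i x => exact Submonoid.subset_closure (.inr ⟨i, x, rfl⟩)
    | mul x y a b => rw [map_mul]; exact mul_mem a b
  | mul x y a b => exact mul_mem a b

theorem rh (R : Finset (Fr X H)) (C : ℕ) (h1 : Function.Surjective (ep X H)) (h2 : ∀ r ∈ R, ep X H r = 1)
    (h3 : ∀ W : List (Fr X H), (∀ s ∈ W, Le X H s) → ep X H W.prod = 1 → ∃ L : List (Fr X H), L.length ≤ C * (W.length + 1) ∧
      (∀ c ∈ L, ∃ f, ∃ r ∈ R, c = f * r * f⁻¹ ∨ c = f * r⁻¹ * f⁻¹) ∧ L.prod = W.prod) :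
    (∀ a : G, ¬ IsOfFinOrder a → ∀ P Q : Σ i, G ⧸ H i, a • P = P → a • Q = Q → P = Q) ∧
      ∀ a b : G, Commute a b → (∀ i j : ℤ, a ^ i * b ^ j = 1 → i = 0 ∧ j = 0) →
        ∃ i j : ℤ, a ^ i * b ^ j ≠ 1 ∧ ∃ P : Σ i, G ⧸ H i, (a ^ i * b ^ j) • P = P := by
  have : ∀ s : Fr X H, ∃ p, Pa (mm X H) 1 (ep X H s) p ∧ ∀ g ω f, ps ω f s g = ev ω f (tl g p) := fun s => by
    obtain ⟨W, a, rfl⟩ := ex_w s
    obtain ⟨p, i, -, k⟩ := w2p W a 1
    exact ⟨p, by simpa using i, fun g => by simpa using k g⟩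
  choose π p1 p2 using this
  have tl' : ∀ {u w p} (g : G), Pa (mm X H) u w p → Pa (mm X H) (g * u) (g * w) (tl g p) := fun g h => by
    induction h with
    | nil => exact .nil _
    | cons a b _ ih => exact .cons (mm_act g a) (mm_act g b) ih
  let Y : Cone G (Kc X H) :=
    { m := mm X H
      act := mm_act
      con u w := let ⟨s, e⟩ := h1 (u⁻¹ * w); ⟨_, by simpa [e] using tl' u (p1 s)⟩
      M := R.sup fun r => (π r).length
      C := C
      Y := ⋃ r ∈ R, ⋃ s ∈ π r, {s.1, s.2.2}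
      fin := R.finite_toSet.biUnion fun r _ => (π r).finite_toSet.biUnion fun _ _ => Set.toFinite _
      fill u p h := by
        obtain ⟨W, a, b, c, e⟩ := p2w h
        obtain ⟨L, l1, l2, l3⟩ := h3 W a (by simpa using c)
        have : ∃ L' : List (G × Fr X H), L'.length = L.length ∧ (∀ c ∈ L', c.2 ∈ R) ∧ ∀ ω f (B : ℤ), (∀ c ∈ L', |ps ω f c.2 c.1| ≤ B) →
            |ps ω f L.prod u| ≤ L.length * B := by
          clear l1 l3
          induction L with
          | nil => exact ⟨[], rfl, by simp, by simp [ps_one]⟩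
          | cons c L ih =>
            obtain ⟨L', i, j, k⟩ := ih fun c l => l2 c (.tail _ l)
            obtain ⟨g, r, r1, r2⟩ := l2 c (.head _)
            refine ⟨(u * ep X H g, r) :: L', by simp [i], List.forall_mem_cons.2 ⟨r1, j⟩, fun ω f B l => ?_⟩
            have e1 : ep X H c = 1 := by rcases r2 with rfl | rfl <;> simp [h2 r r1]
            have e2 : |ps ω f c u| ≤ B := by
              have := l _ (.head _)
              rcases r2 with rfl | rfl <;> simpa [ps_mul, ps_inv, h2 r r1] using this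
            rw [List.prod_cons, ps_mul, e1, mul_one]
            have := k ω f B fun c i => l c (.tail _ i)
            refine (abs_add_le ..).trans ?_
            simp only [List.length_cons]
            push_cast
            linarith
        obtain ⟨L', i, j, k⟩ := this
        refine ⟨L'.map fun c => (c.1, tl c.1 (π c.2)), by rw [List.length_map, i]; exact l1.trans (Nat.mul_le_mul_left _ (by omega)), ?_, fun ω f B l => ?_⟩
        · simp only [List.forall_mem_map]
          refine fun c l => ⟨by simpa [h2 _ (j c l)] using tl' c.1 (p1 c.2), (tl_len ..).trans_le (Finset.le_sup (f := fun r => (π r).length) (j c l)), ?_⟩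
          simp only [tl, List.forall_mem_map, inv_mul_cancel_left]
          exact fun s n => ⟨Set.mem_biUnion (j c l) (Set.mem_biUnion n (.inl rfl)), Set.mem_biUnion (j c l) (Set.mem_biUnion n (.inr rfl))⟩
        · rw [← e, ← l3, List.length_map, i]
          exact k ω f B fun c n => p2 .. ▸ l _ (List.mem_map_of_mem n) }
  refine ⟨fun a h P Q i j => Kc.c.inj (Y.mal h (P := .c P) (Q := .c Q) P.2.out_eq' Q.2.out_eq' (congrArg Kc.c i) (congrArg Kc.c j)), fun a b c h => ?_⟩
  obtain ⟨i, j, k, x, P, -, e⟩ := Y.z2 c h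
  cases P with
  | e g y => exact (k (by simpa using (Kc.e.inj e).1)).elim
  | c P => exact ⟨i, j, k, P, Kc.c.inj e⟩

end Pool.Agent.H.MP_e6550d_al
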