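import Mathlib

namespace Pool.Agent.H.MP_e6550d_al

open scoped Pointwise

variable {G K : Type}

inductive Pa (m : G → K → Prop) : G → G → List (G × K × G) → Prop
  | nil (u) : Pa m u u []
  | cons {u P v w p} : m u P → m v P → Pa m v w p → Pa m u w ((u, P, v) :: p)

def cl (p : List (G × K × G)) : List K := p.map (·.2.1)

def rv (p : List (G × K × G)) : List (G × K × G) := (p.map fun s => (s.2.2, s.2.1, s.1)).reverse

def ev (ω : K → ℤ) (f : G → ℤ) (p : List (G × K × G)) : ℤ := (p.map fun s => ω s.2.1 * (f s.2.2 - f s.1)).sum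

variable {m : G → K → Prop}

theorem Pa.app {u v w p q} (h : Pa m u v p) (k : Pa m v w q) : Pa m u w (p ++ q) := by
  induction h with
  | nil => exact k
  | cons a b _ ih => exact .cons a b (ih k)

theorem Pa.rv {u v p} (h : Pa m u v p) : Pa m v u (rv p) := by
  induction h with
  | nil => exact .nil _
  | cons a b _ ih => simpa [MP_e6550d_al.rv] using ih.app (.cons b a (.nil _))

@[simp] theorem rv_len (p : List (G × K × G)) : (rv p).length = p.length := by simp [rv]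

@[simp] theorem cl_rv {p : List (G × K × G)} {P} : P ∈ cl (rv p) ↔ P ∈ cl p := by simp [rv, cl]

@[simp] theorem cl_app (p q : List (G × K × G)) : cl (p ++ q) = cl p ++ cl q := by simp [cl]

@[simp] theorem cl_cons (s) (q : List (G × K × G)) : cl (s :: q) = s.2.1 :: cl q := rfl

@[simp] theorem cl_nil : cl ([] : List (G × K × G)) = [] := rfl

@[simp] theorem ev_app (ω f) (p q : List (G × K × G)) : ev ω f (p ++ q) = ev ω f p + ev ω f q := by simp [ev]

@[simp] theorem ev_cons (ω f s) (q : List (G × K × G)) : ev ω f (s :: q) = ω s.2.1 * (f s.2.2 - f s.1) + ev ω f q := by simp [ev]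

@[simp] theorem ev_nil (ω : K → ℤ) (f : G → ℤ) : ev ω f [] = 0 := rfl

theorem ev_zero {ω : K → ℤ} {f : G → ℤ} {p} (h : ∀ s ∈ p, ω s.2.1 = 0 ∨ f s.2.2 = f s.1) : ev ω f p = 0 :=
  List.sum_eq_zero fun x i => by
    obtain ⟨s, j, rfl⟩ := List.mem_map.1 i
    rcases h s j with e | e <;> simp [e]

theorem Pa.split {u w p s} (h : Pa m u w p) (i : s ∈ p) :
    m s.1 s.2.1 ∧ m s.2.2 s.2.1 ∧ ∃ p1 p2, p = p1 ++ s :: p2 ∧ Pa m u s.1 p1 ∧ Pa m s.2.2 w p2 := by
  induction h with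
  | nil => simp at i
  | @cons u P v w p a b c ih =>
    rcases List.mem_cons.1 i with rfl | i
    · exact ⟨a, b, [], p, rfl, .nil _, c⟩
    · obtain ⟨j, k, p1, p2, rfl, l, n⟩ := ih i
      exact ⟨j, k, _ :: p1, p2, rfl, .cons a b l, n⟩

theorem Pa.short {u w p} (h : Pa m u w p) : ∃ q, Pa m u w q ∧ q.length ≤ p.length ∧ cl q ⊆ cl p ∧ (cl q).Nodup := by
  induction h with
  | nil => exact ⟨[], .nil _, by simp⟩
  | @cons u P v w p a b c ih =>
    obtain ⟨q, q1, q2, q3, q4⟩ := ih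
    by_cases e : P ∈ cl q
    · obtain ⟨s, i, rfl⟩ := List.mem_map.1 e
      obtain ⟨-, k, p1, p2, rfl, -, n⟩ := q1.split i
      refine ⟨_, .cons a k n, by simp at q2 ⊢; omega, fun x j => List.mem_cons_of_mem _ (q3 (by simp at j ⊢; tauto)), ?_⟩
      exact (List.nodup_append.1 (cl_app .. ▸ q4)).2.1
    · exact ⟨_, .cons a b q1, by simpa, List.cons_subset_cons _ q3, List.nodup_cons.2 ⟨e, q4⟩⟩

theorem Pa.cut {u w p} (h : Pa m u w p) (P : K) : ∃ x q, (x = u ∨ m x P) ∧ Pa m x w q ∧ P ∉ cl q := by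
  induction h with
  | nil => exact ⟨_, [], .inl rfl, .nil _, by simp⟩
  | @cons u Q v w p a b c ih =>
    obtain ⟨x, q, rfl | i, j, k⟩ := ih
    · by_cases e : P = Q
      exacts [⟨x, q, .inr (e ▸ b), j, k⟩, ⟨u, _, .inl rfl, .cons a b j, by simp [e, k]⟩]
    · exact ⟨x, q, .inr i, j, k⟩

theorem Pa.const {α : Type} {u w p} (h : Pa m u w p) (f : G → α) (k : ∀ s ∈ p, f s.2.2 = f s.1) : f w = f u := by
  induction h with
  | nil => rfl
  | cons a b _ ih => exact (ih fun s i => k s (.tail _ i)).trans (k _ (.head _))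

theorem Pa.mono {u w p} (h : Pa m u w p) (ω : K → ℤ) (f : G → ℤ) (c : ℤ)
    (k : ∀ s ∈ p, c * (f s.2.2 - f s.1) ≤ ω s.2.1 * (f s.2.2 - f s.1)) : c * (f w - f u) ≤ ev ω f p := by
  induction h with
  | nil => simp
  | cons a b _ ih =>
    have := ih fun s i => k s (.tail _ i)
    have := k _ (.head _)
    simp only [ev_cons] at *
    linarith

theorem Pa.bd {u w p} (h : Pa m u w p) (ω : K → ℤ) (f : G → ℤ) (c B : ℤ)
    (k : ∀ s ∈ p, |ω s.2.1 - c| ≤ B ∧ |f s.2.2 - f s.1| ≤ 1) : |ev ω f p - c * (f w - f u)| ≤ p.length * B := by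
  induction h with
  | nil => simp
  | @cons u P v w p a b _ ih =>
    have h1 := ih fun s i => k s (.tail _ i)
    obtain ⟨h2, h3⟩ := k _ (.head _)
    have h4 : |(ω P - c) * (f v - f u)| ≤ B := by
      rw [abs_mul]; nlinarith [abs_nonneg (ω P - c), abs_nonneg (f v - f u)]
    rw [ev_cons, show ω P * (f v - f u) + ev ω f p - c * (f w - f u) = (ω P - c) * (f v - f u) + (ev ω f p - c * (f w - f v)) by ring]
    refine (abs_add_le ..).trans ?_
    simp only [List.length_cons]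
    push_cast
    linarith

variable [Group G] [MulAction G K]

def tl (g : G) (p : List (G × K × G)) : List (G × K × G) := p.map fun s => (g * s.1, g • s.2.1, g * s.2.2)

@[simp] theorem tl_len (g : G) (p : List (G × K × G)) : (tl g p).length = p.length := by simp [tl]

@[simp] theorem cl_tl {g : G} {p : List (G × K × G)} {P} : P ∈ cl (tl g p) ↔ g⁻¹ • P ∈ cl p := by
  simp only [tl, cl, List.map_map, List.mem_map, Function.comp_apply, eq_inv_smul_iff]

structure Cone (G K : Type) [Group G] [MulAction G K] where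
  m : G → K → Prop
  act : ∀ (g : G) {x P}, m x P → m (g * x) (g • P)
  con : ∀ u w, ∃ p, Pa m u w p
  M : ℕ
  C : ℕ
  Y : Set G
  fin : Y.Finite
  fill : ∀ u p, Pa m u u p → ∃ L : List (G × List (G × K × G)), L.length ≤ C * (p.length + 1) ∧
    (∀ c ∈ L, Pa m c.1 c.1 c.2 ∧ c.2.length ≤ M ∧ ∀ s ∈ c.2, c.1⁻¹ * s.1 ∈ Y ∧ c.1⁻¹ * s.2.2 ∈ Y) ∧
    ∀ ω f (B : ℤ), (∀ c ∈ L, |ev ω f c.2| ≤ B) → |ev ω f p| ≤ L.length * B

theorem reach {Z : Set G} (h1 : 1 ∈ Z) (u : G) (n : ℕ) : ∀ L : List (Set G), L.length ≤ n → (∀ c ∈ L, ∀ x ∈ c, ∀ y ∈ c, x⁻¹ * y ∈ Z) →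
    ∀ j (U : Set G), (∀ x ∈ U, u⁻¹ * x ∈ Z ^ j) → ∃ U' ⊇ U, (∀ x ∈ U', u⁻¹ * x ∈ Z ^ (j + n)) ∧ ∀ c ∈ L, c ⊆ U' ∨ Disjoint c U' := by
  classical
  induction n with
  | zero => exact fun L l _ j U h => ⟨U, le_rfl, h, by simp [List.length_eq_zero_iff.1 (Nat.le_zero.1 l)]⟩
  | succ n ih =>
    intro L l k j U h
    by_cases e : ∀ c ∈ L, Disjoint c U
    · exact ⟨U, le_rfl, fun x i => Set.pow_subset_pow_right h1 (by omega) (h x i), fun c i => .inr (e c i)⟩
    push Not at e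
    obtain ⟨c, i, e⟩ := e
    obtain ⟨x, x1, x2⟩ := Set.not_disjoint_iff.1 e
    obtain ⟨U', a, b, d⟩ := ih (L.erase c) (by rw [List.length_erase_of_mem i]; omega) (fun c i => k c (List.mem_of_mem_erase i)) (j + 1) (U ∪ c)
      (by
        rintro y (p | p)
        · exact Set.pow_subset_pow_right h1 (by omega) (h y p)
        · rw [pow_succ]
          exact ⟨_, h x x2, _, k c i x x1 y p, by simp⟩)
    refine ⟨U', Set.subset_union_left.trans a, by simpa only [add_assoc, add_comm 1] using b, fun c' i' => ?_⟩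
    by_cases q : c' = c
    exacts [.inl (q ▸ Set.subset_union_right.trans a), d c' ((List.mem_erase_of_ne q).2 i')]

namespace Cone

variable (X : Cone G K)

theorem tl {u w p} (g : G) (h : Pa X.m u w p) : Pa X.m (g * u) (g * w) (tl g p) := by
  induction h with
  | nil => exact .nil _
  | cons a b _ ih => exact .cons (X.act g a) (X.act g b) ih

theorem near (n : ℕ) : ∃ Φ : Set G, Φ.Finite ∧ ∀ {u a b p q r}, Pa X.m u a p → Pa X.m a b q → Pa X.m b u r → (∀ P ∈ cl p, P ∉ cl r) →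
    p.length + q.length + r.length ≤ n → u⁻¹ * a ∈ Φ ∨ ∃ s ∈ q, u⁻¹ * s.1 ∈ Φ ∨ u⁻¹ * s.2.2 ∈ Φ := by
  classical
  have f : ∀ j, ((insert 1 (X.Y⁻¹ * X.Y)) ^ j).Finite := fun j => by
    induction j with
    | zero => simp
    | succ j ih => exact pow_succ (insert 1 (X.Y⁻¹ * X.Y)) j ▸ ih.mul ((X.fin.inv.mul X.fin).insert 1)
  refine ⟨_, f (0 + X.C * (n + 1)), fun {u a b p q r} hp hq hr h l => ?_⟩
  obtain ⟨p, hp, p2, p3, p4⟩ := hp.short
  obtain ⟨L, l1, l2, l3⟩ := X.fill u _ ((hp.app hq).app hr)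
  obtain ⟨U, u1, u2, u3⟩ := reach (Set.mem_insert 1 (X.Y⁻¹ * X.Y)) u (X.C * (n + 1)) (L.map fun c => {x | ∃ s ∈ c.2, x = s.1 ∨ x = s.2.2})
    (by simp only [List.length_map, List.length_append] at l1 ⊢; exact l1.trans (Nat.mul_le_mul_left _ (by omega)))
    (by
      simp only [List.forall_mem_map]
      rintro c i x ⟨s, j, e⟩ y ⟨s', j', e'⟩
      refine .inr ⟨(c.1⁻¹ * x)⁻¹, Set.inv_mem_inv.2 ?_, c.1⁻¹ * y, ?_, by simp⟩
      · rcases e with rfl | rfl
        exacts [((l2 c i).2.2 s j).1, ((l2 c i).2.2 s j).2]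
      · rcases e' with rfl | rfl
        exacts [((l2 c i).2.2 s' j').1, ((l2 c i).2.2 s' j').2]) 0 {u} (by simp)
  by_contra! k
  refine k.1 (u2 a ?_)
  have := hp.const (fun x => if x ∈ U then (1 : ℤ) else 0) fun s i => by
    have := l3 (fun P => if P = s.2.1 then 1 else 0) (fun x => if x ∈ U then 1 else 0) 0 fun c j => by
      rw [ev_zero, abs_zero]
      intro t i
      rcases u3 _ (List.mem_map_of_mem j) with e | e
      · simp [e ⟨t, i, .inl rfl⟩, e ⟨t, i, .inr rfl⟩]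
      · simp [Set.disjoint_left.1 e ⟨t, i, .inl rfl⟩, Set.disjoint_left.1 e ⟨t, i, .inr rfl⟩]
    obtain ⟨-, -, p1, p2, rfl, -, -⟩ := hp.split i
    have z : ∀ {t : List (G × K × G)}, s.2.1 ∉ cl t → ev (fun P => if P = s.2.1 then 1 else 0) (fun x => if x ∈ U then 1 else 0) t = 0 :=
      fun {t} e => ev_zero fun x j => .inl (if_neg fun r : x.2.1 = s.2.1 => e (r ▸ List.mem_map_of_mem j))
    simp only [cl_app, cl_cons, List.nodup_append, List.nodup_cons] at p4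
    rw [ev_app, ev_app, ev_app, ev_cons, z fun e => p4.2.2 _ e _ (.head _) rfl, z p4.2.1.1, z (h _ (p3 (by simp))),
      ev_zero (p := q) fun t j => .inr (by rw [if_neg (mt (u2 _) (k.2 t j).1), if_neg (mt (u2 _) (k.2 t j).2)])] at this
    simpa [sub_eq_zero] using this
  simpa [u1 rfl] using this

theorem iso (n : ℕ) : ∃ Φ : Set G, Φ.Finite ∧ ∀ {x y P p}, X.m x P → X.m y P → Pa X.m y x p → P ∉ cl p → p.length ≤ n → x⁻¹ * y ∈ Φ := by
  obtain ⟨Φ, a, b⟩ := X.near (n + 1)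
  exact ⟨Φ, a, fun i j k l e => by simpa using b (.cons i j (.nil _)) (.nil _) k (by simpa) (by simp; omega)⟩

theorem mal {a : G} (ha : ¬ IsOfFinOrder a) {P Q : K} {x y} (hx : X.m x P) (hy : X.m y Q) (h : a • P = P) (k : a • Q = Q) : P = Q := by
  by_contra e
  obtain ⟨p, hp⟩ := X.con x y
  obtain ⟨x, p, i, hp, j⟩ := hp.cut P
  have hx : X.m x P := i.elim (· ▸ hx) id
  obtain ⟨Φ, f, b⟩ := X.iso (2 * p.length + 1)
  have h : ∀ n : ℕ, a ^ n • P = P := fun n => pow_mem (show a ∈ MulAction.stabilizer G P from h) n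
  have k : ∀ n : ℕ, a ^ n • Q = Q := fun n => pow_mem (show a ∈ MulAction.stabilizer G Q from k) n
  refine Set.infinite_of_injective_forall_mem (f := fun n : ℕ => (a ^ n * x)⁻¹ * x) (fun i j e => ?_) (fun n => ?_) f
  · exact injective_pow_iff_not_isOfFinOrder.2 ha (by simpa using e)
  · exact b (h n ▸ X.act _ hx) hx (hp.app (.cons hy (k n ▸ X.act _ hy) (X.tl (a ^ n) hp).rv))
      (by simp [j, e, inv_smul_eq_iff.2 (h n).symm]) (by simp; omega)

theorem unb {a : G} (ha : ¬ IsOfFinOrder a) (h : ∀ n : ℤ, ∀ x P, X.m x P → a ^ n • P = P → n = 0) (D : ℕ) :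
    ¬ ∀ c : ℤ, ∃ p, Pa X.m 1 (a ^ c) p ∧ p.length ≤ D := fun hw => by
  classical
  have hw' : ∀ c : ℤ, ∃ p, Pa X.m 1 (a ^ c) p ∧ p.length ≤ D ∧ (cl p).Nodup := fun c =>
    let ⟨_, i, j⟩ := hw c; let ⟨q, k, l, _, n⟩ := i.short; ⟨q, k, l.trans j, n⟩
  choose w w1 w2 w3 using hw'
  have inh : ∀ c, ∀ P ∈ cl (w c), ∃ x, X.m x P := fun c P i =>
    let ⟨s, j, e⟩ := List.mem_map.1 i; ⟨_, e ▸ ((w1 c).split j).1⟩
  have inj : ∀ P x, X.m x P → Function.Injective fun n : ℤ => a ^ n • P := fun P x i n n' e => by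
    have := h (-n' + n) x P i (by rw [zpow_add, mul_smul, show a ^ n • P = _ from e, zpow_neg, inv_smul_smul])
    omega
  have fn : ∀ (P : K) (S : Set K), S.Finite → (∀ Q ∈ S, ∃ x, X.m x Q) → {n : ℤ | (a ^ n)⁻¹ • P ∈ S}.Finite := fun P S f i =>
    (f.biUnion fun Q j => let ⟨x, k⟩ := i Q j; (Set.subsingleton_singleton.preimage (inj Q x k) (s := {P})).finite).subset fun n j =>
      Set.mem_biUnion j (by simp)
  let U := Filter.hyperfilter ℤ
  let E := {P | ∀ᶠ b : ℤ in U, P ∈ cl (w b)}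
  have hE : E.Finite := by
    by_contra c
    obtain ⟨t, t1, t2⟩ := Set.Infinite.exists_subset_card_eq c (D + 1)
    obtain ⟨b, e⟩ := ((Filter.eventually_all_finset t).2 fun P i => t1 i).exists
    have := (Finset.card_le_card (t := (cl (w b)).toFinset) fun P i => List.mem_toFinset.2 (e P i)).trans (List.toFinset_card_le _)
    have := w2 b
    simp [cl] at *
    omega
  have iE : ∀ P ∈ E, ∃ x, X.m x P := fun P i => let ⟨b, j⟩ := i.exists; inh b P j
  let I : K → G → Prop := fun P z => ∀ᶠ b : ℤ in U, ∃ p, Pa X.m z (a ^ b) p ∧ P ∉ cl p ∧ p.length ≤ 3 * D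
  have hI : ∀ P z (e : ℤ) p, Pa X.m z (a ^ e) p → P ∉ cl p → p.length ≤ D → (a ^ e)⁻¹ • P ∉ E → I P z := fun P z e p i j k l => by
    filter_upwards [Ultrafilter.eventually_not.2 l, (fn P _ (cl (w e)).finite_toSet (inh e)).compl_mem_hyperfilter] with b p1 p2
    have i2 := X.tl (a ^ e) (w1 b)
    have i3 := (X.tl (a ^ b) (w1 e)).rv
    rw [mul_one] at i2 i3
    rw [(zpow_mul_comm ..)] at i3
    exact ⟨_, (i.app i2).app i3, by simpa [j, p1] using p2, by have := w2 b; have := w2 e; simp; omega⟩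
  obtain ⟨Φ, f, b⟩ := X.iso (6 * D)
  have b1 : ∀ P x y, X.m x P → X.m y P → I P x → I P y → x⁻¹ * y ∈ Φ := fun P x y i j k l => by
    obtain ⟨_, ⟨p, p1, p2, p3⟩, q, q1, q2, q3⟩ := (k.and l).exists
    exact b i j (q1.app p1.rv) (by simp [p2, q2]) (by simp; omega)
  let J : K → G → Prop := fun P z => ∃ p, Pa X.m z 1 p ∧ P ∉ cl p ∧ p.length ≤ D
  have f0 : ∀ S : Set G, (∀ x ∈ S, ∀ y ∈ S, x⁻¹ * y ∈ Φ) → S.Finite := fun S k => by
    rcases S.eq_empty_or_nonempty with rfl | ⟨x, i⟩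
    exacts [Set.finite_empty, (f.image (x * ·)).subset fun y j => ⟨_, k x i y j, by simp⟩]
  let F : K → Set G := fun P => {z | X.m z P ∧ I P z} ∪ {z | X.m z P ∧ J P z}
  have hF : ∀ P, (F P).Finite := fun P => (f0 _ fun x i y j => b1 P x y i.1 j.1 i.2 j.2).union (f0 _ fun x ⟨i, p, p1, p2, p3⟩ y ⟨j, q, q1, q2, q3⟩ =>
    b i j (q1.app p1.rv) (by simp [p2, q2]) (by simp; omega))
  let Ψ := insert 1 (Φ ∪ ⋃ P ∈ E, (F P)⁻¹ * F P)
  have hΨ : ∀ j, (Ψ ^ j).Finite := fun j => by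
    induction j with
    | zero => simp
    | succ j ih => exact pow_succ Ψ j ▸ ih.mul ((f.union (hE.biUnion fun P _ => (hF P).inv.mul (hF P))).insert 1)
  have pw : ∀ {u v p}, Pa X.m u v p → (∀ s ∈ p, s.1⁻¹ * s.2.2 ∈ Ψ) → u⁻¹ * v ∈ Ψ ^ p.length := fun {u v p} k l => by
    induction k with
    | nil => simp
    | cons _ _ _ ih => exact pow_succ' Ψ _ ▸ ⟨_, l _ (.head _), _, ih fun s i => l s (.tail _ i), by simp⟩
  refine Set.infinite_univ (((hE.biUnion fun P _ => fn P E hE iE).union ((hΨ D).preimage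
    (injective_zpow_iff_not_isOfFinOrder.2 ha).injOn)).subset fun c _ => or_iff_not_imp_left.2 fun k => ?_)
  refine Set.pow_subset_pow_right (Set.mem_insert ..) (w2 c) ?_
  suffices (1 : G)⁻¹ * a ^ c ∈ Ψ ^ (w c).length by simpa using this
  refine pw (w1 c) fun s i => .inr ?_
  obtain ⟨m1, m2, p1, p2, e, q1, q2⟩ := (w1 c).split i
  have n := w3 c
  have l := w2 c
  simp only [e, cl_app, cl_cons, List.nodup_append, List.nodup_cons, List.length_append, List.length_cons] at n l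
  have n1 : s.2.1 ∉ cl p1 := fun r => n.2.2 _ r _ (.head _) rfl
  by_cases c1 : s.2.1 ∈ E
  · exact .inr (Set.mem_biUnion c1 ⟨_, Set.inv_mem_inv.2 (.inr ⟨m1, _, q1.rv, by simpa, by simp; omega⟩), _,
      .inl ⟨m2, hI _ _ c _ q2 n.2.1.1 (by omega) fun r => k (Set.mem_biUnion c1 r)⟩, rfl⟩)
  by_cases c2 : (a ^ c)⁻¹ • s.2.1 ∈ E
  · refine .inr (Set.mem_biUnion c2 ⟨_, Set.inv_mem_inv.2 (.inl ⟨X.act _ m1, hI _ _ (-c) _ (by simpa using X.tl (a ^ c)⁻¹ q1.rv)
      (by simpa) (by simp; omega) (by simpa)⟩), _, .inr ⟨X.act _ m2, _, by simpa using X.tl (a ^ c)⁻¹ q2, by simpa using n.2.1.1, by simp; omega⟩, by simp⟩)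
  · exact .inl (b1 _ _ _ m1 m2 (hI _ _ 0 _ (by simpa using q1.rv) (by simpa) (by simp; omega) (by simpa)) (hI _ _ c _ q2 n.2.1.1 (by omega) c2))

end Cone

end Pool.Agent.H.MP_e6550d_al
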