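import Pool.Agent.H.MP_e6550d_al.A

namespace Pool.Agent.H.MP_e6550d_al

variable {G K : Type} [Group G] [MulAction G K]

namespace Cone

variable (X : Cone G K)

noncomputable def d (u w : G) : ℕ := sInf {n | ∃ p, Pa X.m u w p ∧ p.length = n}

theorem ex_d (u w : G) : ∃ p, Pa X.m u w p ∧ p.length = X.d u w :=
  Nat.sInf_mem (s := {n | ∃ p, Pa X.m u w p ∧ p.length = n}) (let ⟨p, h⟩ := X.con u w; ⟨_, p, h, rfl⟩)

variable {X}

theorem d_le {u w p} (h : Pa X.m u w p) : X.d u w ≤ p.length := Nat.sInf_le ⟨p, h, rfl⟩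

theorem d_one {u w P} (h : X.m u P) (k : X.m w P) : X.d u w ≤ 1 := d_le (.cons h k (.nil _))

theorem d_pa {u w p s} (h : Pa X.m u w p) (i : s ∈ p) : X.d u s.1 ≤ p.length ∧ X.d u s.2.2 ≤ p.length ∧
    X.d s.1 w ≤ p.length ∧ X.d s.2.2 w ≤ p.length := by
  obtain ⟨a, b, p1, p2, rfl, c, e⟩ := h.split i
  have := d_le c
  have := d_le e
  have := d_le (c.app (.cons a b (.nil _)))
  have := d_le (.cons a b e)
  simp at *
  omega

variable (X)

theorem d_self (u : G) : X.d u u = 0 := Nat.le_zero.1 (d_le (.nil u))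

theorem d_tri (u v w : G) : X.d u w ≤ X.d u v + X.d v w := by
  obtain ⟨p, a, b⟩ := X.ex_d u v
  obtain ⟨q, c, e⟩ := X.ex_d v w
  simpa [b, e] using d_le (a.app c)

theorem d_comm (u v : G) : X.d u v = X.d v u := by
  have : ∀ u v, X.d u v ≤ X.d v u := fun u v => let ⟨p, a, b⟩ := X.ex_d v u; by simpa [b] using d_le a.rv
  exact le_antisymm (this ..) (this ..)

theorem d_act (g u v : G) : X.d (g * u) (g * v) = X.d u v := by
  have : ∀ g u v, X.d (g * u) (g * v) ≤ X.d u v := fun g u v => let ⟨p, a, b⟩ := X.ex_d u v; by simpa [b] using d_le (X.tl g a)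
  exact le_antisymm (this ..) (by simpa using this g⁻¹ (g * u) (g * v))

def Geo (σ : ℕ → G) (n : ℕ) : Prop := (∀ k < n, ∃ P, X.m (σ k) P ∧ X.m (σ (k + 1)) P) ∧ X.d (σ 0) (σ n) = n

theorem ex_geo (u w : G) : ∃ σ, X.Geo σ (X.d u w) ∧ σ 0 = u ∧ σ (X.d u w) = w := by
  obtain ⟨p, a, b⟩ := X.ex_d u w
  have : ∃ σ : ℕ → G, (∀ k < p.length, ∃ P, X.m (σ k) P ∧ X.m (σ (k + 1)) P) ∧ σ 0 = u ∧ σ p.length = w := by
    clear b
    induction a with
    | nil u => exact ⟨fun _ => u, by simp, rfl, rfl⟩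
    | @cons u P v w p i j _ ih =>
      obtain ⟨σ, s1, rfl, s3⟩ := ih
      exact ⟨fun k => k.casesOn u σ, fun k l => k.casesOn (fun _ => ⟨P, i, j⟩) (fun k l => s1 k (by simpa using l)) l, rfl, s3⟩
  obtain ⟨σ, s1, rfl, s3⟩ := this
  rw [b] at s1 s3
  exact ⟨σ, ⟨s1, by rw [s3]⟩, rfl, s3⟩

variable {X} {σ τ : ℕ → G} {n : ℕ}

theorem Geo.act (h : X.Geo σ n) (g : G) : X.Geo (fun k => g * σ k) n :=
  ⟨fun k l => let ⟨_, a, b⟩ := h.1 k l; ⟨_, X.act g a, X.act g b⟩, (X.d_act ..).trans h.2⟩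

theorem Geo.seg (h : X.Geo σ n) {i j : ℕ} (l : i ≤ j) (l' : j ≤ n) :
    ∃ p, Pa X.m (σ i) (σ j) p ∧ p.length + i = j ∧ ∀ s ∈ p, ∃ k, i ≤ k ∧ k < j ∧ s.1 = σ k ∧ s.2.2 = σ (k + 1) := by
  induction j, l using Nat.le_induction with
  | base => exact ⟨[], .nil _, by simp⟩
  | succ j l ih =>
    obtain ⟨p, a, b, c⟩ := ih (by omega)
    obtain ⟨P, e, f⟩ := h.1 j l'
    refine ⟨_, a.app (.cons e f (.nil _)), by simp; omega, fun s m => ?_⟩
    rcases List.mem_append.1 m with m | m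
    · obtain ⟨k, k1, k2, k3⟩ := c s m
      exact ⟨k, k1, by omega, k3⟩
    · obtain rfl := List.mem_singleton.1 m
      exact ⟨j, l, by simp, rfl, rfl⟩

theorem Geo.dist (h : X.Geo σ n) {i j : ℕ} (l : i ≤ j) (l' : j ≤ n) : X.d (σ i) (σ j) + i = j := by
  obtain ⟨p, a, b, -⟩ := h.seg l l'
  obtain ⟨q, c, e, -⟩ := h.seg (Nat.zero_le i) (l.trans l')
  obtain ⟨r, f, g, -⟩ := h.seg l' le_rfl
  have := d_le a
  have := d_le c
  have := d_le f
  have := X.d_tri (σ 0) (σ i) (σ n)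
  have := X.d_tri (σ i) (σ j) (σ n)
  have := h.2
  omega

theorem Geo.seg' (h : X.Geo σ n) {i j : ℕ} (l : i ≤ n) (l' : j ≤ n) :
    ∃ p, Pa X.m (σ i) (σ j) p ∧ p.length = X.d (σ i) (σ j) ∧ ∀ s ∈ p, (∃ k ≤ n, s.1 = σ k) ∧ ∃ k ≤ n, s.2.2 = σ k := by
  rcases le_total i j with e | e
  · obtain ⟨p, a, b, c⟩ := h.seg e l'
    exact ⟨p, a, by have := h.dist e l'; omega, fun s m => let ⟨k, _, _, i, j⟩ := c s m; ⟨⟨k, by omega, i⟩, k + 1, by omega, j⟩⟩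
  · obtain ⟨p, a, b, c⟩ := h.seg e l
    refine ⟨_, a.rv, by have := h.dist e l; rw [rv_len, X.d_comm]; omega, fun s m => ?_⟩
    obtain ⟨s, m', rfl⟩ := List.mem_map.1 (List.mem_reverse.1 m)
    obtain ⟨k, _, _, i, j⟩ := c s m'
    exact ⟨⟨k + 1, by omega, j⟩, k, by omega, i⟩

theorem fat (X : Cone G K) : ∃ K1, 0 < K1 ∧ ∀ {σ τ n t1 t2 s1 s2 m}, X.Geo σ n → X.Geo τ n → t1 ≤ t2 → t2 ≤ n → s1 ≤ n → s2 ≤ n → 0 < m →
    X.d (σ t1) (τ s1) ≤ m → X.d (σ t2) (τ s2) ≤ m → (∀ t, t1 < t → t < t2 → ∀ s ≤ n, K1 < X.d (σ t) (τ s)) → t2 ≤ t1 + 6 * m := by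
  classical
  obtain ⟨B, hB⟩ : ∃ B : ℕ, B = X.C * (X.M * (X.M + 1)) := ⟨_, rfl⟩
  refine ⟨4 * B + 2, by omega, fun {σ τ n t1 t2 s1 s2 m} hσ hτ l1 l2 l3 l4 m0 d1 d2 far => not_lt.1 fun c => ?_⟩
  let η : G → ℕ := fun x => (Finset.Ioo t1 t2).sup fun t => 4 * B + 2 - X.d x (σ t)
  have η1 : ∀ x y, η x ≤ η y + X.d x y := fun x y => Finset.sup_le fun t i => by
    have : _ ≤ η y := Finset.le_sup (f := fun t => 4 * B + 2 - X.d y (σ t)) i
    have := X.d_tri y x (σ t)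
    have := X.d_comm x y
    omega
  let b : K → G := fun P => Classical.epsilon (X.m · P)
  have hb : ∀ {x P}, X.m x P → X.d (b P) x ≤ 1 := fun h => d_one (Classical.epsilon_spec (p := (X.m · _)) ⟨_, h⟩) h
  let f : G → ℤ := fun x => min (max (X.d (σ t1) x) m) (t2 - t1 - m)
  have f1 : ∀ {x y P}, X.m x P → X.m y P → |f y - f x| ≤ 1 := fun {x y P} i j => by
    have := d_one i j
    have := X.d_tri (σ t1) x y
    have := X.d_tri (σ t1) y x
    have := X.d_comm x y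
    simp only [f, abs_le]
    omega
  obtain ⟨p, p1, p2, p3⟩ := hσ.seg l1 l2
  obtain ⟨q, q1, q2⟩ := X.ex_d (σ t2) (τ s2)
  obtain ⟨r, r1, r2, r3⟩ := hτ.seg' l4 l3
  obtain ⟨u, u1, u2⟩ := X.ex_d (τ s1) (σ t1)
  have e0 := hσ.dist l1 l2
  have e1 := X.d_tri (τ s2) (σ t2) (τ s1)
  have e2 := X.d_tri (σ t2) (σ t1) (τ s1)
  rw [X.d_comm (τ s2) (σ t2)] at e1
  rw [X.d_comm (σ t2) (σ t1)] at e2
  rw [X.d_comm] at u2
  obtain ⟨L, a1, a2, a3⟩ := X.fill _ _ (((p1.app q1).app r1).app u1)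
  have k := a3 (fun P => η (b P)) f (X.M * (X.M + 1)) fun c i => by
    obtain ⟨i1, i2, -⟩ := a2 c i
    have := i1.bd (fun P => η (b P)) f (η c.1) (X.M + 1) fun s j => ⟨by
      have := (d_pa i1 j).1
      have := hb (i1.split j).1
      have := η1 (b s.2.1) c.1
      have := η1 c.1 (b s.2.1)
      have := X.d_tri c.1 s.1 (b s.2.1)
      have := X.d_comm c.1 (b s.2.1)
      have := X.d_comm s.1 (b s.2.1)
      simp only [abs_le]
      omega, f1 (i1.split j).1 (i1.split j).2.1⟩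
    simp only [sub_self, mul_zero, sub_zero] at this
    exact this.trans (mul_le_mul_of_nonneg_right (by exact_mod_cast i2) (by positivity))
  rw [ev_app, ev_app, ev_app, ev_zero (p := q), ev_zero (p := r), ev_zero (p := u)] at k
  · have k2 := p1.mono (fun P => η (b P)) f (4 * B + 1) fun s i => by
      obtain ⟨j, j1, j2, j3, j4⟩ := p3 s i
      have := hσ.dist j1 (by omega)
      have := hσ.dist (j := j + 1) (j1.trans j.le_succ) (by omega)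
      rcases j1.lt_or_eq with j1 | rfl
      · refine mul_le_mul_of_nonneg_right ?_ (by simp only [f, j3, j4]; omega)
        have : _ ≤ η (b s.2.1) := Finset.le_sup (f := fun t => 4 * B + 2 - X.d (b s.2.1) (σ t)) (Finset.mem_Ioo.2 ⟨j1, j2⟩)
        have := hb (p1.split i).1
        rw [j3] at this
        omega
      · rw [show f s.2.2 - f s.1 = 0 by simp only [f, j3, j4]; omega]
        simp
    have e3 : f (σ t2) - f (σ t1) = t2 - t1 - 2 * m := by simp only [f, X.d_self]; omega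
    have e4 : (L.length : ℤ) * (X.M * (X.M + 1)) ≤ B * (2 * (t2 - t1) + 4 * m + 1) := by
      have : L.length ≤ X.C * (2 * p.length + 4 * m + 1) := a1.trans (Nat.mul_le_mul_left _ (by simp; omega))
      have : (L.length : ℤ) ≤ X.C * (2 * (t2 - t1) + 4 * m + 1) := by
        rw [show (t2 : ℤ) - t1 = p.length by omega]; exact_mod_cast this
      rw [hB]; push_cast
      nlinarith [show (0 : ℤ) ≤ X.M * (X.M + 1) by positivity]
    rw [e3] at k2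
    have k3 := le_abs_self (ev (fun P => (η (b P) : ℤ)) f p)
    simp only [add_zero] at k
    have c' : (t1 : ℤ) + 6 * m + 1 ≤ t2 := by exact_mod_cast c
    nlinarith [show (0 : ℤ) ≤ B by positivity]
  · intro s i
    obtain ⟨-, -, i1, i2⟩ := d_pa u1 i
    rw [X.d_comm] at i1 i2
    exact .inr (by simp only [f]; omega)
  · intro s i
    obtain ⟨⟨j, j1, j2⟩, -⟩ := r3 s i
    refine .inl (Nat.cast_eq_zero.2 (Nat.le_zero.1 (Finset.sup_le fun t l => ?_)))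
    have := far t (Finset.mem_Ioo.1 l).1 (Finset.mem_Ioo.1 l).2 j j1
    have := hb (r1.split i).1
    have := X.d_tri (σ t) (b s.2.1) (τ j)
    have := X.d_comm (σ t) (b s.2.1)
    rw [j2] at *
    omega
  · intro s i
    obtain ⟨i1, i2, -⟩ := d_pa q1 i
    have := X.d_tri (σ t1) s.1 (σ t2)
    have := X.d_tri (σ t1) s.2.2 (σ t2)
    rw [X.d_comm] at i1 i2
    exact .inr (by simp only [f]; omega)

theorem thin (X : Cone G K) : ∃ D, ∀ {σ τ n m t}, X.Geo σ n → X.Geo τ n → D ≤ m → X.d (σ 0) (τ 0) ≤ m → X.d (σ n) (τ n) ≤ m →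
    6 * m < t → t + 6 * m < n → ∃ s ≤ n, X.d (σ t) (τ s) ≤ D := by
  classical
  obtain ⟨K1, k0, h⟩ := X.fat
  refine ⟨7 * K1, fun {σ τ n m t} hσ hτ l d1 d2 l1 l2 => ?_⟩
  let c := fun t => ∃ s ≤ n, X.d (σ t) (τ s) ≤ K1
  obtain ⟨t1, a1, a2, a3⟩ : ∃ t1 ≤ t, (t1 = 0 ∨ c t1) ∧ ∀ t', t1 < t' → t' ≤ t → ¬ c t' :=
    ⟨_, Nat.findGreatest_le (P := fun t => t = 0 ∨ c t) t, Nat.findGreatest_spec (P := fun t => t = 0 ∨ c t) (Nat.zero_le _) (.inl rfl),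
      fun t' i j k => Nat.findGreatest_is_greatest i j (.inr k)⟩
  have ex : ∃ t', t ≤ t' ∧ (t' = n ∨ c t') := ⟨n, by omega, .inl rfl⟩
  obtain ⟨t2, b0, ⟨b1, b2⟩, b3⟩ : ∃ t2 ≤ n, (t ≤ t2 ∧ (t2 = n ∨ c t2)) ∧ ∀ t' < t2, t ≤ t' → ¬ c t' :=
    ⟨_, Nat.find_min' ex ⟨by omega, .inl rfl⟩, Nat.find_spec ex, fun t' i j k => Nat.find_min ex i ⟨j, .inr k⟩⟩
  have far : ∀ t', t1 < t' → t' < t2 → ∀ s ≤ n, K1 < X.d (σ t') (τ s) := fun t' i j s l => not_le.1 fun k =>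
    (le_total t' t).elim (fun e => a3 t' i e ⟨s, l, k⟩) fun e => b3 t' j e ⟨s, l, k⟩
  obtain ⟨s1, i1, i2⟩ : ∃ s ≤ n, X.d (σ t1) (τ s) ≤ m := a2.elim (fun e => ⟨0, by omega, e ▸ d1⟩) fun ⟨s, i, j⟩ => ⟨s, i, by omega⟩
  obtain ⟨s2, j1, j2⟩ : ∃ s ≤ n, X.d (σ t2) (τ s) ≤ m := b2.elim (fun e => ⟨n, le_rfl, e ▸ d2⟩) fun ⟨s, i, j⟩ => ⟨s, i, by omega⟩
  have := h hσ hτ (a1.trans b1) b0 i1 j1 (by omega) i2 j2 far
  obtain ⟨s1, i1, i2⟩ := a2.resolve_left (by omega)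
  obtain ⟨s2, j1, j2⟩ := b2.resolve_left (by omega)
  have := h hσ hτ (a1.trans b1) b0 i1 j1 k0 i2 j2 far
  have := hσ.dist a1 (by omega)
  have := X.d_tri (σ t) (σ t1) (τ s1)
  exact ⟨s1, i1, by rw [X.d_comm (σ t) (σ t1)] at this; omega⟩

theorem close (X : Cone G K) : ∃ D, ∃ Φ : Set G, Φ.Finite ∧ ∀ {σ τ n m t}, X.Geo σ n → X.Geo τ n → D ≤ m → X.d (σ 0) (τ 0) ≤ m →
    X.d (σ n) (τ n) ≤ m → 8 * m < t → t + 8 * m < n → ∃ s ≤ n, (σ t)⁻¹ * τ s ∈ Φ := by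
  obtain ⟨D, h⟩ := X.thin
  obtain ⟨Φ, f, k⟩ := X.near (8 * D + 4)
  refine ⟨D + 1, Φ, f, fun {σ τ n m t} hσ hτ l d1 d2 l1 l2 => ?_⟩
  obtain ⟨t, rfl⟩ : ∃ t', t = t' + (D + 1) := ⟨t - (D + 1), by omega⟩
  obtain ⟨s1, a1, a2⟩ := h (t := t) hσ hτ (by omega) d1 d2 (by omega) (by omega)
  obtain ⟨s2, b1, b2⟩ := h (t := t + (D + 1) + (D + 1)) hσ hτ (by omega) d1 d2 (by omega) (by omega)
  obtain ⟨p, p1, p2, p3⟩ := hσ.seg (i := t + (D + 1)) (j := t + (D + 1) + (D + 1)) (by omega) (by omega)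
  obtain ⟨q, q1, q2⟩ := X.ex_d (σ (t + (D + 1) + (D + 1))) (τ s2)
  obtain ⟨r, r1, r2, r3⟩ := hτ.seg' b1 a1
  obtain ⟨u, u1, u2⟩ := X.ex_d (τ s1) (σ t)
  obtain ⟨v, v1, v2, v3⟩ := hσ.seg (i := t) (j := t + (D + 1)) (by omega) (by omega)
  have e0 := hσ.dist (i := t) (j := t + (D + 1) + (D + 1)) (by omega) (by omega)
  have e1 := X.d_tri (τ s2) (σ (t + (D + 1) + (D + 1))) (τ s1)
  have e2 := X.d_tri (σ (t + (D + 1) + (D + 1))) (σ t) (τ s1)
  have e3 : ∀ j ≤ n, X.d (σ 0) (σ j) = j := fun j l => hσ.dist (Nat.zero_le j) l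
  rw [X.d_comm (τ s2) (σ _)] at e1
  rw [X.d_comm _ (σ t)] at e2
  rw [X.d_comm] at u2
  suffices dj : ∀ P ∈ cl (p ++ q), P ∉ cl (u ++ v) by
    rcases k (p1.app q1) r1 (u1.app v1) dj (by simp; omega) with e | ⟨s, i, e | e⟩
    · exact ⟨s2, b1, e⟩
    · obtain ⟨⟨j, j1, j2⟩, -⟩ := r3 s i
      exact ⟨j, j1, j2 ▸ e⟩
    · obtain ⟨-, j, j1, j2⟩ := r3 s i
      exact ⟨j, j1, j2 ▸ e⟩
  intro P i0 j0
  obtain ⟨s, i, rfl⟩ := List.mem_map.1 i0
  obtain ⟨s', j, e⟩ := List.mem_map.1 j0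
  have c := d_one ((u1.app v1).split j).1 (show X.m s.2.2 s'.2.1 from (show s'.2.1 = s.2.1 from e) ▸ ((p1.app q1).split i).2.1)
  have c1 : t + (D + 1) < X.d (σ 0) s.2.2 := by
    rcases List.mem_append.1 i with i | i
    · obtain ⟨k, k1, k2, -, k3⟩ := p3 s i
      rw [k3, e3 _ (by omega)]; omega
    · have := (d_pa q1 i).2.1
      have := X.d_tri (σ 0) s.2.2 (σ (t + (D + 1) + (D + 1)))
      rw [e3 _ (by omega), X.d_comm s.2.2] at this
      omega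
  have c2 : X.d (σ 0) s'.1 < t + (D + 1) := by
    rcases List.mem_append.1 j with j | j
    · have := (d_pa u1 j).2.2.1
      have := X.d_tri (σ 0) (σ t) s'.1
      rw [e3 _ (by omega), X.d_comm (σ t) s'.1] at this
      omega
    · obtain ⟨k, k1, k2, k3, -⟩ := v3 s' j
      rw [k3, e3 _ (by omega)]; omega
  have := X.d_tri (σ 0) s'.1 s.2.2
  omega

theorem z2 (X : Cone G K) {a b : G} (c : Commute a b) (h : ∀ i j : ℤ, a ^ i * b ^ j = 1 → i = 0 ∧ j = 0) :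
    ∃ i j : ℤ, a ^ i * b ^ j ≠ 1 ∧ ∃ x P, X.m x P ∧ (a ^ i * b ^ j) • P = P := by
  classical
  by_contra! k
  obtain ⟨D, Φ, f, cl⟩ := X.close
  obtain ⟨R, hR⟩ := (f.image (X.d 1)).bddAbove
  have pw : ∀ (g : G) (i : ℕ), X.d 1 (g ^ i) ≤ i * X.d 1 g := fun g i => by
    induction i with
    | zero => simp [X.d_self]
    | succ i ih =>
      have := X.d_tri 1 (g ^ i) (g ^ i * g)
      have := X.d_act (g ^ i) 1 g
      rw [pow_succ, add_mul]
      simp only [mul_one, one_mul] at *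
      omega
  obtain ⟨N, hN⟩ : ∃ N, N = f.toFinset.card * (2 * (X.d 1 a + X.d 1 b) + 2 * D + 2 * R + 1) + 1 := ⟨_, rfl⟩
  obtain ⟨m, hm⟩ : ∃ m, m = N * (X.d 1 a + X.d 1 b) + D := ⟨_, rfl⟩
  obtain ⟨e, he⟩ : ∃ e : ℤ, 16 * m + 1 < X.d 1 (a ^ e) := by
    by_contra! l
    refine X.unb (a := a) (fun r => ?_) (fun n x P i j => ?_) (16 * m + 1) fun e => let ⟨p, i, j⟩ := X.ex_d 1 (a ^ e); ⟨p, i, j ▸ l e⟩
    · obtain ⟨n, i, j⟩ := isOfFinOrder_iff_zpow_eq_one.1 r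
      exact i (h n 0 (by simpa using j)).1
    · exact (h n 0 (by_contra fun r => k n 0 r x P i (by simpa using j))).1
  obtain ⟨σ, s1, s2, s3⟩ := X.ex_geo 1 (a ^ e)
  generalize X.d 1 (a ^ e) = n at *
  have : ∀ p : ℕ × ℕ, ∃ q : G × ℕ, p ∈ Finset.range N ×ˢ Finset.range N → q ∈ f.toFinset ×ˢ Finset.Icc (8 * m + 1 - (m + R)) (8 * m + 1 + (m + R)) ∧
      q.1 = (σ (8 * m + 1))⁻¹ * (a ^ p.1 * b ^ p.2 * σ q.2) := fun p => by
    by_cases i : p ∈ Finset.range N ×ˢ Finset.range N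
    swap
    · exact ⟨(1, 0), fun j => (i j).elim⟩
    simp only [Finset.mem_product, Finset.mem_range] at i
    have l : X.d 1 (a ^ p.1 * b ^ p.2) ≤ m := by
      have := X.d_tri 1 (a ^ p.1) (a ^ p.1 * b ^ p.2)
      have := X.d_act (a ^ p.1) 1 (b ^ p.2)
      have := pw a p.1
      have := pw b p.2
      simp only [mul_one] at *
      nlinarith
    obtain ⟨s, j1, j2⟩ := cl (m := m) (t := 8 * m + 1) s1 (s1.act (a ^ p.1 * b ^ p.2)) (by omega) (by simpa [s2] using l) (by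
      have : a ^ p.1 * b ^ p.2 * a ^ e = a ^ e * (a ^ p.1 * b ^ p.2) :=
        (((Commute.refl a).pow_left _).mul_left (c.symm.pow_left _)).zpow_right e
      rwa [s3, this, ← mul_one (a ^ e), mul_assoc, X.d_act, one_mul]) (by omega) (by omega)
    refine ⟨(_, s), fun _ => ⟨Finset.mem_product.2 ⟨f.mem_toFinset.2 j2, ?_⟩, rfl⟩⟩
    have e1 := hR ⟨_, j2, rfl⟩
    have e2 := s1.dist (Nat.zero_le s) j1
    have e3 := s1.dist (Nat.zero_le (8 * m + 1)) (by omega)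
    rw [← X.d_act (σ (8 * m + 1)), mul_one, mul_inv_cancel_left] at e1
    rw [← X.d_act (a ^ p.1 * b ^ p.2), s2, mul_one] at e2
    rw [s2] at e3
    generalize a ^ p.1 * b ^ p.2 = g at *
    have := X.d_tri 1 g (g * σ s)
    have := X.d_tri g 1 (g * σ s)
    have := X.d_tri 1 (σ (8 * m + 1)) (g * σ s)
    have := X.d_tri 1 (g * σ s) (σ (8 * m + 1))
    have := X.d_comm g 1
    have := X.d_comm (g * σ s) (σ (8 * m + 1))
    simp only [Finset.mem_Icc]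
    omega
  choose q hq using this
  have := Finset.card_le_card_of_injOn q (fun p i => (hq p i).1) fun p i p' j e => by
    have e1 := (hq p i).2.symm.trans (e ▸ (hq p' j).2)
    rw [mul_right_inj, e, mul_left_inj] at e1
    have := h (p.1 - p'.1) (p.2 - p'.2) (by
      rw [zpow_sub, zpow_sub, ((c.zpow_zpow _ _).inv_left.mul_mul_mul_comm), zpow_natCast, zpow_natCast, e1, zpow_natCast, zpow_natCast,
        ← mul_inv_rev, (c.pow_pow _ _).eq, mul_inv_cancel])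
    exact Prod.ext (by omega) (by omega)
  simp only [Finset.card_product, Finset.card_range, Nat.card_Icc] at this
  have l : 8 * m + 1 + (m + R) + 1 - (8 * m + 1 - (m + R)) ≤ N * (2 * (X.d 1 a + X.d 1 b) + 2 * D + 2 * R + 1) := by
    have : 2 * D + 2 * R + 1 ≤ N * (2 * D + 2 * R + 1) := Nat.le_mul_of_pos_left _ (by omega)
    have : 8 * m + 1 + (m + R) + 1 - (8 * m + 1 - (m + R)) ≤ 2 * m + 2 * R + 1 := by omega
    nlinarith
  have := this.trans (Nat.mul_le_mul_left _ l)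
  nlinarith

end Cone

end Pool.Agent.H.MP_e6550d_al
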