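import Pool.Agent.H.MP_8a4945_al.E

namespace Pool.Agent.H.MP_e6550d_al

open Monoid
open scoped Pointwise

variable {G V : Type} [Group G] [MulAction G V]

def Split (G : Type) [Group G] : Prop :=
  ∃ (A B : Type) (_ : Group A) (_ : Group B), Nontrivial A ∧ Nontrivial B ∧ Nonempty (G ≃* Coprod A B)

theorem pp (tf : ∀ a : G, a ≠ 1 → ¬ IsOfFinOrder a) (A B : Subgroup G) (hA : A ≠ ⊥) (hB : B ≠ ⊥) (h : A ⊔ B = ⊤) (U : Set V) (h1 : U.Nonempty)
    (h2 : Uᶜ.Nonempty) (h3 : ∀ a ∈ A, a ≠ 1 → ∀ x ∈ U, a • x ∉ U) (h4 : ∀ a ∈ B, a ≠ 1 → ∀ x ∉ U, a • x ∈ U) : Split G := by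
  let M : Bool → Subgroup G := fun b => cond b A B
  have i := CoprodI.lift_injective_of_ping_pong (H := fun b => M b) (fun b => (M b).subtype) (.inr ⟨true, by
    obtain ⟨a, i, j⟩ := A.bot_or_exists_ne_one.resolve_left hA
    have : Infinite A := .of_injective (fun n : ℕ => ⟨a ^ n, pow_mem i n⟩) fun m n e =>
      injective_pow_iff_not_isOfFinOrder.2 (tf a j) (congrArg Subtype.val e)
    exact (Cardinal.natCast_lt_aleph0 (n := 3)).le.trans (Cardinal.aleph0_le_mk A)⟩) (fun b => cond b Uᶜ U) (by rintro (_ | _); exacts [h1, h2])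
    (by rintro (_ | _) (_ | _) e; exacts [(e rfl).elim, disjoint_compl_right, disjoint_compl_left, (e rfl).elim])
    (by
      rintro (_ | _) (_ | _) e a l _ ⟨x, i, rfl⟩
      exacts [(e rfl).elim, h4 a a.2 (by simpa using l) x i, h3 a a.2 (by simpa using l) x i, (e rfl).elim])
  let f : Coprod A B →* CoprodI fun b => M b := Coprod.lift (CoprodI.of (M := fun b => M b) (i := true)) (CoprodI.of (M := fun b => M b) (i := false))
  let g : (CoprodI fun b => M b) →* Coprod A B := CoprodI.lift fun b => b.rec Coprod.inr Coprod.inl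
  have e : g.comp f = .id _ := Coprod.hom_ext rfl rfl
  have e' : (CoprodI.lift fun b => (M b).subtype).comp f = Coprod.lift A.subtype B.subtype := Coprod.hom_ext rfl rfl
  refine ⟨A, B, inferInstance, inferInstance, A.nontrivial_iff_ne_bot.2 hA, B.nontrivial_iff_ne_bot.2 hB,
    ⟨(MulEquiv.ofBijective (Coprod.lift A.subtype B.subtype) ⟨?_, MonoidHom.range_eq_top.1 ?_⟩).symm⟩⟩
  · rw [← e']
    exact i.comp (Function.LeftInverse.injective (g := g) (DFunLike.congr_fun e))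
  · simpa using h

theorem fsplit {α : Type} (φ : G →* FreeGroup α) (h : Function.Injective φ) {x y : G} (k : ¬ Commute x y) : Split G := by
  classical
  have e := (MonoidHom.ofInjective h).trans (IsFreeGroup.toFreeGroup φ.range)
  generalize IsFreeGroup.Generators φ.range = β at e
  obtain ⟨a, b, i⟩ : ∃ a b : β, a ≠ b := by
    by_contra! c
    refine k (e.injective ?_)
    have : ∀ u v : FreeGroup β, Commute u v := fun u v => by
      induction u using FreeGroup.induction_on with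
      | C1 => simp
      | of u =>
        induction v using FreeGroup.induction_on with
        | C1 => simp
        | of v => rw [c u v]
        | inv_of v i => exact i.inv_right
        | mul _ _ i j => exact i.mul_right j
      | inv_of u i => exact i.inv_left
      | mul _ _ i j => exact i.mul_left j
    simpa using (this (e x) (e y)).eq
  have : Nonempty {c // c = a} := ⟨⟨a, rfl⟩⟩
  have : Nonempty {c // c ≠ a} := ⟨⟨b, i.symm⟩⟩
  exact ⟨FreeGroup {c // c = a}, FreeGroup {c // c ≠ a}, inferInstance, inferInstance, inferInstance, inferInstance, ⟨e.trans (MonoidHom.toMulEquiv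
    (FreeGroup.lift fun c => if h : c = a then .inl (.of ⟨c, h⟩) else .inr (.of ⟨c, h⟩))
    (Coprod.lift (FreeGroup.map Subtype.val) (FreeGroup.map Subtype.val)) (FreeGroup.ext_hom _ _ fun c => by by_cases h : c = a <;> simp [h])
    (Coprod.hom_ext (FreeGroup.ext_hom _ _ fun ⟨c, h⟩ => by simp [h]) (FreeGroup.ext_hom _ _ fun ⟨c, h⟩ => by simp [h])))⟩⟩

structure Cut (adj E : V → V → Prop) (p q : V) (W : Set V) : Prop where
  a : adj p q
  l : p ∉ W
  r : q ∈ W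
  s : ∀ x y, adj x y → ¬ (x = p ∧ y = q) → ¬ (x = q ∧ y = p) → (x ∈ W ↔ y ∈ W)
  e : ∀ x y, E x y → (x ∈ W ↔ y ∈ W)

theorem csplit (tf : ∀ a : G, a ≠ 1 → ¬ IsOfFinOrder a) (adj : V → V → Prop) (sym : ∀ u v, adj u v → adj v u)
    (inv : ∀ (g : G) u v, adj u v → adj (g • u) (g • v)) (con : ∀ (P : V → Prop) x, P x → (∀ u v, adj u v → P u → P v) → ∀ y, P y)
    {u v : V} {U : Set V} (h : Cut adj (fun _ _ => False) u v U) (fr : ∀ g : G, g • u = u → g • v = v → g = 1)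
    (n1 : ∃ a : G, a ≠ 1 ∧ ∃ x ∉ U, a • x = x) (n2 : ∃ a : G, a ≠ 1 ∧ ∃ x ∈ U, a • x = x) : Split G := by
  have ni : ∀ g : G, g • u = v → g • v = u → False := fun g i j => by
    obtain rfl : g = 1 := by_contra fun c => tf g c (isOfFinOrder_iff_pow_eq_one.2 ⟨2, two_pos, by
      rw [pow_two]; exact fr _ (by rw [mul_smul, i, j]) (by rw [mul_smul, j, i])⟩)
    exact h.l ((one_smul G u).symm.trans i ▸ h.r)
  obtain ⟨E, e0, e1, e2, e3⟩ : ∃ E : V → V → Prop, Equivalence E ∧ (∀ (g : G) x y, E x y → E (g • x) (g • y)) ∧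
      (∀ x y, adj x y → E x y ∨ ∃ g : G, (x = g • u ∧ y = g • v) ∨ (x = g • v ∧ y = g • u)) ∧ ∀ x y, E x y → (x ∈ U ↔ y ∈ U) := by
    refine ⟨Relation.EqvGen fun x y => adj x y ∧ ¬ ∃ g : G, (x = g • u ∧ y = g • v) ∨ (x = g • v ∧ y = g • u), Relation.EqvGen.is_equivalence _,
      fun g x y k => ?_, fun x y k => or_iff_not_imp_right.2 fun l => .rel _ _ ⟨k, l⟩, fun x y k => ?_⟩
    · induction k with
      | rel x y k => exact .rel _ _ ⟨inv g _ _ k.1, fun ⟨c, l⟩ => k.2 ⟨g⁻¹ * c, by simpa [mul_smul, eq_inv_smul_iff] using l⟩⟩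
      | refl => exact .refl _
      | symm _ _ _ i => exact i.symm
      | trans _ _ _ _ _ i j => exact i.trans _ _ _ j
    · induction k with
      | rel x y k => exact h.s x y k.1 (fun l => k.2 ⟨1, .inl (by simpa using l)⟩) fun l => k.2 ⟨1, .inr (by simpa using l)⟩
      | refl => rfl
      | symm _ _ _ i => exact i.symm
      | trans _ _ _ _ _ i j => exact i.trans j
  have e4 : ∀ (g : G) x y, E (g • x) y → E x (g⁻¹ • y) := fun g x y k => by simpa using e1 g⁻¹ _ _ k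
  have c0 : Cut adj E u v U := ⟨h.a, h.l, h.r, h.s, e3⟩
  have c1 : ∀ {p q W}, Cut adj E p q W → Cut adj E q p Wᶜ := fun k =>
    ⟨sym _ _ k.a, not_not.2 k.r, k.l, fun x y i j l => not_congr (k.s x y i l j), fun x y i => not_congr (k.e x y i)⟩
  have c2 : ∀ {p q W} (g : G), Cut adj E p q W → Cut adj E (g • p) (g • q) {x | g⁻¹ • x ∈ W} := fun g k =>
    ⟨inv g _ _ k.a, by simpa using k.l, by simpa using k.r, fun x y i j l => k.s _ _ (inv _ _ _ i) (by simpa [inv_smul_eq_iff] using j)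
      (by simpa [inv_smul_eq_iff] using l), fun x y i => k.e _ _ (e1 _ _ _ i)⟩
  have dj : ∀ {p q W p' q' W'}, Cut adj E p q W → Cut adj E p' q' W' → E p p' → ¬ (p = p' ∧ q = q') → ∀ x, x ∈ W → x ∉ W' := by
    intro p q W p' q' W' k k' i j
    have a1 : p' ∉ W := mt (k.e _ _ i).2 k.l
    have a2 : p ∉ W' := mt (k'.e _ _ i).1 k'.l
    have a3 : q ∉ W' := mt (k'.s _ _ k.a j fun l => a2 (l.1 ▸ k'.r)).2 a2
    have a4 : q' ∉ W := mt (k.s _ _ k'.a (fun l => j ⟨l.1.symm, l.2.symm⟩) fun l => a1 (l.1 ▸ k.r)).2 a1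
    refine con _ p (fun _ => a2) fun x y a b c d => ?_
    refine b ((k.s x y a ?_ ?_).2 c) ((k'.s x y a ?_ ?_).2 d) <;> rintro ⟨-, rfl⟩
    exacts [a3 d, k.l c, a4 c, k'.l d]
  let St : V → Subgroup G := fun x =>
    { carrier := {g | E (g • x) x}
      one_mem' := by simpa using e0.refl x
      mul_mem' := fun {a b} i j => e0.trans (mul_smul a b x ▸ e1 a _ _ j) i
      inv_mem' := fun {a} i => e0.symm (e4 a _ _ i) }
  have gen : ∀ L : Subgroup G, St u ≤ L → St v ≤ L → (∀ g, E (g • u) v → g ∈ L) → L = ⊤ ∧ ∀ x, ∃ k : G, E (k • u) x ∨ E (k • v) x := fun L a b c => by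
    have f1 : ∀ x, St x ≤ L → ∀ k ∈ L, ∀ g, E (k • x) (g • x) → g ∈ L := fun x a k i g j =>
      (mul_mem_cancel_left (inv_mem i)).1 (a (e0.symm (mul_smul k⁻¹ g x ▸ e4 _ _ _ j)))
    have f2 : ∀ k g, E (k • u) (g • v) → (k ∈ L ↔ g ∈ L) := fun k g j => by
      have := c (g⁻¹ * k) (mul_smul g⁻¹ k u ▸ e0.symm (e4 _ _ _ (e0.symm j)))
      exact ⟨fun i => inv_mem_iff.1 ((mul_mem_cancel_right i).1 this), fun i => (mul_mem_cancel_left (inv_mem i)).1 this⟩
    have := con (fun x => ∃ k ∈ L, E (k • u) x ∨ E (k • v) x) u ⟨1, one_mem _, .inl (St u).one_mem⟩ fun x y i ⟨k, j, l⟩ => by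
      rcases e2 x y i with m | ⟨g, ⟨rfl, rfl⟩ | ⟨rfl, rfl⟩⟩
      · exact ⟨k, j, l.imp (e0.trans · m) (e0.trans · m)⟩
      · exact ⟨g, l.elim (f1 u a k j g) fun l => (f2 _ _ (e0.symm l)).2 j, .inr (e0.refl _)⟩
      · exact ⟨g, l.elim (fun l => (f2 _ _ l).1 j) (f1 v b k j g), .inl (e0.refl _)⟩
    exact ⟨(Subgroup.eq_top_iff' L).2 fun g => let ⟨k, j, l⟩ := this (g • u); l.elim (f1 u a k j g) fun l => (f2 _ _ (e0.symm l)).2 j,
      fun x => let ⟨k, _, l⟩ := this x; ⟨k, l⟩⟩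
  by_cases c : ∃ τ : G, E (τ • u) v
  · obtain ⟨τ, c⟩ := c
    have d1 := c2 τ⁻¹ (c1 c0)
    have d2 : E u (τ⁻¹ • v) := e4 _ _ _ c
    have d3 := dj c0 d1 d2 fun l => ni τ⁻¹ l.2.symm l.1.symm
    simp only [inv_inv] at d1 d3
    have f : ∀ g, E (g • u) v → g ∈ St u ⊔ .zpowers τ := fun g i => (mul_mem_cancel_left (inv_mem (Subgroup.mem_sup_right (Subgroup.mem_zpowers τ)))).1
      (Subgroup.mem_sup_left (e0.symm (mul_smul τ⁻¹ g u ▸ e4 _ _ _ (e0.trans c (e0.symm i)))))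
    obtain ⟨g1, g2⟩ := gen (St u ⊔ .zpowers τ) le_sup_left (fun g i => (mul_mem_cancel_right (Subgroup.mem_sup_right (Subgroup.mem_zpowers τ))).1
      (f _ (e0.trans (mul_smul g τ u ▸ e1 g _ _ c) i))) f
    refine pp tf _ _ ?_ ?_ g1 (U ∪ {x | τ • x ∈ Uᶜ}) ⟨v, .inl c0.r⟩ ⟨u, fun l => l.elim c0.l (mt (d1.e _ _ d2).1 d1.l)⟩ (fun a i j x k l => ?_) ?_
    · obtain ⟨a, a1, x, -, a2⟩ := n1
      obtain ⟨k, l⟩ : ∃ k : G, E (k • u) x := let ⟨k, l⟩ := g2 x; l.elim (⟨k, ·⟩) fun l => ⟨k * τ, e0.trans (mul_smul k τ u ▸ e1 k _ _ c) l⟩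
      refine (Subgroup.ne_bot_iff_exists_ne_one).2 ⟨⟨k⁻¹ * a * k, e0.symm ?_⟩, by simpa [Subtype.ext_iff, mul_assoc, inv_mul_eq_one] using a1⟩
      rw [mul_smul, mul_smul]
      exact e4 _ _ _ (e0.trans l (e0.symm (a2 ▸ e1 a _ _ l :)))
    · exact Subgroup.zpowers_ne_bot.2 (by rintro rfl; exact c0.l ((e3 _ _ (by simpa using c)).2 c0.r))
    · have i' : E (a • τ⁻¹ • v) u := e0.trans (e1 a _ _ (e0.symm d2)) i
      rcases k with k | k <;> rcases l with l | l
      · exact dj (c2 a c0) c0 i (fun l => j (fr a l.1 l.2)) _ (by simpa) l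
      · exact dj (c2 a c0) d1 (e0.trans i d2) (fun l => ni (τ * a) (by simp [mul_smul, l.1]) (by simp [mul_smul, l.2])) _ (by simpa) l
      · exact dj (c2 a d1) c0 i' (fun l => ni (a * τ⁻¹) (by simp [mul_smul, l.2]) (by simp [mul_smul, l.1])) _ (by simpa) l
      · exact dj (c2 a d1) d1 (e0.trans i' d2) (fun l => j (by simpa using fr (τ * a * τ⁻¹) (by simp [mul_smul, l.2]) (by simp [mul_smul, l.1]))) _ (by simpa) l
    · have p1 : ∀ (n : ℕ) x, τ • x ∈ U → τ ^ (n + 1) • x ∈ U := fun n x i => by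
        induction n with
        | zero => simpa
        | succ n ih => rw [pow_succ', mul_smul]; exact not_not.1 (d3 _ ih)
      have p2 : ∀ (n : ℕ) x, x ∉ U → τ • τ⁻¹ ^ (n + 1) • x ∉ U := fun n x i => by
        induction n with
        | zero => simpa
        | succ n ih => rw [pow_succ', mul_smul, smul_inv_smul]; exact fun l => d3 _ l ih
      rintro _ ⟨n, rfl⟩ i x j
      rcases n with (_ | n) | n
      · simp at i
      · exact .inl (by simpa [← zpow_natCast] using p1 n x (not_not.1 fun l => j (.inr l)))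
      · exact .inr (by simpa using p2 n x fun l => j (.inl l))
  push Not at c
  have nt : ∀ {p q W}, Cut adj E p q W → (∀ g : G, ¬ E (g • p) q) → (∀ x y, adj x y → E x y ∨ ∃ g : G, (x = g • p ∧ y = g • q) ∨ (x = g • q ∧ y = g • p)) →
      (∃ a : G, a ≠ 1 ∧ ∃ x ∉ W, a • x = x) → St p ≠ ⊥ := fun {p q W} k i j ⟨a, a1, x, a2, a3⟩ e => by
    have := (con (fun x => x ∈ W ∨ E p x) p (.inr (e0.refl p)) (fun x y l m => by
      rcases m with m | m
      · by_cases r : y = p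
        · exact .inr (r ▸ e0.refl _)
        · exact .inl ((k.s x y l (fun r => k.l (r.1 ▸ m)) fun s => r s.2).1 m)
      rcases j x y l with n | ⟨g, ⟨rfl, rfl⟩ | ⟨rfl, rfl⟩⟩
      · exact .inr (e0.trans m n)
      · obtain rfl : g = 1 := Subgroup.mem_bot.1 (e ▸ (e0.symm m : g ∈ St p))
        exact .inl (by simpa using k.r)
      · exact (i g⁻¹ (e0.symm (e4 _ _ _ (e0.symm m)))).elim) x).resolve_left a2
    exact a1 (Subgroup.mem_bot.1 (e ▸ (e0.trans (a3 ▸ e1 a _ _ this :) (e0.symm this) : a ∈ St p)))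
  exact pp tf _ _ (nt c0 c e2 n1) (nt (c1 c0) (fun g i => c g⁻¹ (e0.symm (e4 _ _ _ i))) (fun x y i => (e2 x y i).imp_right (Exists.imp fun _ => Or.symm))
    (by simpa using n2)) (gen _ le_sup_left le_sup_right fun g i => (c g i).elim).1 U ⟨v, c0.r⟩ ⟨u, c0.l⟩
    (fun a i j x k => dj (c2 a c0) c0 i (fun l => j (fr a l.1 l.2)) _ (by simpa))
    fun a i j x k => not_not.1 (dj (c2 a (c1 c0)) (c1 c0) i (fun l => j (fr a l.2 l.1)) _ (by simpa))

theorem tsplit {K : Type} [MulAction G K] (tf : ∀ a : G, a ≠ 1 → ¬ IsOfFinOrder a) (adj : V → V → Prop) (sym : ∀ u v, adj u v → adj v u)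
    (inv : ∀ (g : G) u v, adj u v → adj (g • u) (g • v)) (v0 : V)
    (hd : ∀ ρ, ∃ dep : V → ℕ, (∀ u v, adj u v → dep v = dep u + 1 ∨ dep u = dep v + 1) ∧
      (∀ u v v', adj u v → adj u v' → dep u = dep v + 1 → dep u = dep v' + 1 → v = v') ∧
      (∀ u, u = ρ ∨ ∃ v, adj v u ∧ dep u = dep v + 1) ∧ dep ρ = 0)
    (mal : ∀ a : G, a ≠ 1 → ∀ P Q : K, a • P = P → a • Q = Q → P = Q)
    (vx : ∀ (v : V) (a : G), a ≠ 1 → a • v = v → ∃ P : K, ∀ g : G, g • v = v → g • P = P) (pr : ∀ P : K, ∃ g : G, g • P ≠ P)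
    {x y : G} (nc : ¬ Commute x y) : Split G := by
  by_cases c : ∀ (a : G) (v : V), a • v = v → a = 1
  · obtain ⟨dep, h2, h3, h4, h7⟩ := hd v0
    obtain ⟨α, φ, h⟩ := MP_8a4945_al.tree_free (A := G) (fun _ => True) adj dep v0 (by simp) (by simp) sym inv (fun a v _ => c a v)
      (fun a e => by_contra fun l => tf a l (isOfFinOrder_iff_pow_eq_one.2 ⟨2, two_pos, by rwa [pow_two]⟩)) h2 h3
      (fun u n _ e => (h4 u).elim (fun l => by rw [l] at e; omega) fun ⟨v, i, j⟩ => ⟨v, i, by omega⟩)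
      (fun u _ e => (h4 u).resolve_right fun ⟨v, _, j⟩ => by omega) trivial h7
    exact fsplit φ h nc
  push Not at c
  obtain ⟨a, ρ, a1, a2⟩ := c
  obtain ⟨dep, h2, h3, h4, h7⟩ := hd ρ
  obtain ⟨P, hP⟩ := vx ρ a a2 a1
  obtain ⟨g, hg⟩ := pr P
  have ind : ∀ P : V → Prop, P ρ → (∀ u v, adj v u → dep u = dep v + 1 → P v → P u) → ∀ u, P u := fun P i j u => by
    induction e : dep u generalizing u with
    | zero => exact ((h4 u).resolve_right fun ⟨v, _, j⟩ => by omega) ▸ i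
    | succ n ih => exact (h4 u).elim (· ▸ i) fun ⟨v, k, l⟩ => j u v k l (ih v (by omega))
  let D : V → Set V := fun y => {x | Relation.ReflTransGen (fun v u => adj v u ∧ dep u = dep v + 1) y x}
  have D1 : ∀ y, ∀ x ∈ D y, dep y ≤ dep x := fun y x i => by
    induction i with
    | refl => rfl
    | tail _ j ih => have := j.2; omega
  obtain ⟨u, v, k1, k2, k3, k4⟩ := (ind (fun x => (∀ b : G, b • x = x → b • P = P) ∨
      ∃ u v, adj u v ∧ dep v = dep u + 1 ∧ (∀ b : G, b • u = u → b • v = v → b = 1) ∧ x ∈ D v) (.inl hP) (fun u v i j k => by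
    rcases k with k | ⟨p, q, k1, k2, k3, k4⟩
    · by_cases e : ∀ b : G, b • v = v → b • u = u → b = 1
      · exact .inr ⟨v, u, i, j, e, .refl⟩
      push Not at e
      obtain ⟨b, b1, b2, b3⟩ := e
      obtain ⟨Q, hQ⟩ := vx u b b3 b2
      exact .inl (mal b b3 _ _ (hQ b b2) (k b b1) ▸ hQ)
    · exact .inr ⟨p, q, k1, k2, k3, k4.tail ⟨i, j⟩⟩) (g • ρ)).resolve_left fun k =>
      hg (mal (g * a * g⁻¹) (by simpa using a2) _ _ (by simp [mul_smul, hP a a1]) (k _ (by simp [mul_smul, a1])))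
  have D2 : ∀ x y, adj x y → dep y = dep x + 1 → ¬ (x = u ∧ y = v) → (x ∈ D v ↔ y ∈ D v) := fun x y i j k => ⟨fun l => l.tail ⟨i, j⟩, fun l => by
    rcases Relation.ReflTransGen.cases_tail l with rfl | ⟨z, l1, l2, l3⟩
    · exact (k ⟨h3 _ _ _ (sym _ _ i) (sym _ _ k1) j k2, rfl⟩).elim
    · exact h3 _ _ _ (sym _ _ l2) (sym _ _ i) l3 j ▸ l1⟩
  refine csplit tf adj sym inv (fun P x i j y => ?_) (u := u) (v := v) (U := D v) ⟨k1, fun l => ?_, .refl, fun x y i j k => ?_, by simp⟩ k3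
    ⟨a, a2, ρ, fun l => ?_, a1⟩ ⟨g * a * g⁻¹, by simpa using a2, _, k4, by simp [mul_smul, a1]⟩
  · exact ind P (ind (fun x => P x → P ρ) id (fun u v k _ l m => l (j _ _ (sym _ _ k) m)) x i) (fun u v k _ => j _ _ k) y
  · have := D1 _ _ l; omega
  · exact (h2 x y i).elim (fun l => D2 x y i l j) fun l => (D2 y x (sym _ _ i) l fun m => k m.symm).symm
  · have := D1 _ _ l; omega

end Pool.Agent.H.MP_e6550d_al
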