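import Pool.Agent.H.MP_e6550d_al.C
import Pool.Agent.H.MP_e6550d_al.D
import Pool.Agent.H.MP_07d80f_al.C

namespace Pool.Agent.H.MP_8a4945_al

open Pool.Agent.H.MP_e6550d_al

variable {S : Type} {R : Set (Rl S)} {G T : Type} [Group G] [MulAction G T]

namespace Sys

theorem rh_split (X : Sys R G T) (o : T) {K : Type} [MulAction G K]
    (mal : ∀ a : G, ¬ IsOfFinOrder a → ∀ P Q : K, a • P = P → a • Q = Q → P = Q)
    (z2 : ∀ a b : G, Commute a b → (∀ i j : ℤ, a ^ i * b ^ j = 1 → i = 0 ∧ j = 0) → ∃ i j : ℤ, a ^ i * b ^ j ≠ 1 ∧ ∃ P : K, (a ^ i * b ^ j) • P = P)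
    (pr : ∀ P : K, ∃ g : G, g • P ≠ P) {a : G} {P : K} (ha : a ≠ 1) (hP : a • P = P) : Split G := by
  classical
  have tf : ∀ a : G, a ≠ 1 → ¬ IsOfFinOrder a := fun a i j =>
    let ⟨_, k, _⟩ := start (X := X) o i; let ⟨_, l, e⟩ := isOfFinOrder_iff_zpow_eq_one.1 j; (k.zpow l).ne e
  have cm : ∀ {a g : G} {P : K}, a ≠ 1 → a • P = P → Commute a g → g • P = P := fun {a g P} i j k =>
    mal a (tf a i) _ _ (by rw [← mul_smul, k.eq, mul_smul, j]) j
  let V := {z // X.Bd ⊤ z}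
  let _ : MulAction G V :=
    { smul g z := ⟨g • z.1, by
        obtain ⟨_, t, i, rfl, a, b, c⟩ := z
        exact ⟨g • t, i, rfl, by rwa [ln_act], fun k => b (by simpa using k.act (Subgroup.mem_top g⁻¹)), c.act (Subgroup.mem_top g)⟩⟩
      one_smul z := Subtype.ext (one_smul G z.1)
      mul_smul a b z := Subtype.ext (mul_smul a b z.1) }
  choose ix hx using ex_bd (X := X) (K := ⊤) fun e => ha (Subgroup.mem_bot.1 (e ▸ Subgroup.mem_top a))
  let y : T → V := fun t => ⟨_, hx t⟩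
  have y1 : ∀ t i (v : V), X.q false t i = v.1 → y t = v := fun t i v e => Subtype.ext ((congrArg _ ((hx t).uniq (e ▸ v.2))).trans e)
  have y2 : ∀ v : V, ∃ t, y t = v := fun v => let ⟨t, i, e, _⟩ := v.2; ⟨t, y1 t i v e⟩
  have y3 : ∀ (g : G) t, y (g • t) = g • y t := fun g t => y1 _ (ix t) _ rfl
  have y4 : ∀ {t t' a r d b}, X.St t t' a r d b → y t ≠ y t' → ∃ k < (src r d).length, X.q false t (a.length + k) = (y t).1 :=
    fun {t t' a r d b} s e => by
      by_cases c : ix t < a.length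
      · exact (e (y1 t' _ _ (qL s c).symm).symm).elim
      by_cases c' : a.length + (src r d).length ≤ ix t
      · obtain ⟨k, c'⟩ := Nat.exists_eq_add_of_le c'
        exact (e (y1 t' _ _ ((qR s k).symm.trans (c' ▸ rfl))).symm).elim
      · exact ⟨ix t - a.length, by omega, by rw [Nat.add_sub_cancel' (not_lt.1 c)]⟩
  obtain ⟨g, hg⟩ := pr P
  refine tsplit tf (fun u v => u ≠ v ∧ ∃ t t' a r d b, X.St t t' a r d b ∧ y t = u ∧ y t' = v) ?_ ?_ (y o) (fun ρ => ?_)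
    (fun a i => mal a (tf a i)) (fun v a i j => ?_) pr (mt (cm ha hP) hg)
  · rintro _ _ ⟨e, t, t', a, r, d, b, s, rfl, rfl⟩
    exact ⟨e.symm, _, _, _, _, _, _, X.sym s, rfl, rfl⟩
  · rintro g _ _ ⟨e, t, t', a, r, d, b, s, rfl, rfl⟩
    exact ⟨by simpa using e, _, _, a, r, d, b, X.sact g s, y3 .., y3 ..⟩
  · obtain ⟨o, rfl⟩ := y2 ρ
    obtain ⟨N, hN⟩ := X.chart o
    have y5 : ∀ {t t' a c b A B u u' a' b' A' B'}, X.Up N t t' a c b A B → X.Up N u u' a' c b' A' B' → y t ≠ y t' → y u = y t ∧ y u' = y t' :=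
      fun p q e => by
        obtain ⟨k, l, f⟩ := y4 p.st e
        obtain ⟨k', l', f'⟩ := y4 (X.sym p.st) e.symm
        exact ⟨y1 _ _ _ (q.l1 ▸ (hN.same q.e1 p.e1 (p.l2 ▸ l)).trans (p.l1 ▸ f)),
          y1 _ _ _ ((hN.same q.e2 p.e2 ((outs_len ..).symm ▸ l')).trans (p.l1 ▸ f'))⟩
    let Φ : T → ℕ := fun t => {c ∈ cells (N t) | ∃ t t' a b A B, X.Up N t t' a c b A B ∧ y t ≠ y t'}.ncard
    have f1 : ∀ {t t' a c b A B}, X.Up N t t' a c b A B → Φ t' = Φ t + if y t = y t' then 0 else 1 := fun {t t' a c b A B} p => by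
      split_ifs with e
      · refine congrArg Set.ncard (Set.ext fun c' => and_congr_left fun h => ?_)
        obtain ⟨_, _, _, _, _, _, q, r⟩ := h
        rw [(hN.up_c p).2]
        exact or_iff_right (by rintro rfl; exact r (((y5 q p r).1.symm.trans e).trans (y5 q p r).2))
      · rw [← Set.ncard_insert_of_notMem (a := c) (fun r => (hN.up_c p).1 r.1) ((hN.inv t).fin.subset fun _ r => r.1)]
        refine congrArg Set.ncard (Set.ext fun c' => ?_)
        simp only [(hN.up_c p).2, Set.mem_insert_iff, Set.mem_ofPred_eq, or_and_right]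
        exact or_congr_left (and_iff_left_of_imp (by rintro rfl; exact ⟨_, _, _, _, _, _, p, e⟩))
    have f2 : ∀ t u, y t = y u → Φ t = Φ u := hN.geo _ (fun _ _ => rfl) (fun _ _ p e => (p e.symm).symm) fun t0 t a c b A B u p m ih e => by
      obtain ⟨i, -, f⟩ := hN.conv (z := (y t).1) p m ⟨_, (hx t).at.1, rfl⟩ ⟨_, (hx u).at.1, congrArg Subtype.val e.symm⟩
      rw [f1 p, if_pos (y1 _ _ _ f), add_zero, ih ((y1 _ _ _ f).trans e)]
    choose τ hτ using y2
    have f3 : ∀ t, Φ (τ (y t)) = Φ t := fun t => f2 _ _ (hτ _)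
    have f4 : ∀ u v : V, (u ≠ v ∧ ∃ t t' a r d b, X.St t t' a r d b ∧ y t = u ∧ y t' = v) → Φ (τ v) = Φ (τ u) + 1 ∨ Φ (τ u) = Φ (τ v) + 1 ∧
        ∃ t t' a c b A B, X.Up N t t' a c b A B ∧ y t = v ∧ y t' = u := by
      rintro _ _ ⟨e, t, t', a, r, d, b, s, rfl, rfl⟩
      rcases hN.dich s with ⟨L, A, B, p⟩ | ⟨L, A, B, p⟩
      exacts [.inl (by rw [f3, f3, f1 p, if_neg e]), .inr ⟨by rw [f3, f3, f1 p, if_neg e.symm], _, _, _, _, _, _, _, p, rfl, rfl⟩]
    refine ⟨fun v => Φ (τ v), fun u v h => (f4 u v h).imp_right And.left, fun u v v' h h' e e' => ?_, fun u => ?_, (f3 o).trans (by simp [Φ, hN.cells_base])⟩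
    · obtain ⟨-, t, t', a, c, b, A, B, p, rfl, rfl⟩ := (f4 _ _ h).resolve_left (by simp only at e; omega)
      obtain ⟨-, u, u', a', c', b', A', B', q, rfl, f⟩ := (f4 _ _ h').resolve_left (by simp only at e'; omega)
      obtain ⟨k, l, i⟩ := y4 (X.sym p.st) h.1
      obtain ⟨k', l', i'⟩ := y4 (X.sym q.st) (f ▸ h'.1)
      have := hN.nm0 (i.trans ((congrArg Subtype.val f).symm.trans i'.symm))
      rw [p.e2, q.e2, ← p.l1, ← q.l1] at this
      simp only [List.append_assoc, Nat.le_add_right, List.getElem?_append_right, Nat.add_sub_cancel_left, Ce.os] at this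
      rw [List.getElem?_append_left (by rwa [outs_len]), List.getElem?_append_left (by rwa [outs_len])] at this
      simp only [outs, List.getElem?_map, List.getElem?_range l, List.getElem?_range l', Option.map_some, Option.some.injEq] at this
      obtain rfl := (Ce.o_inj this).1
      exact (y5 p q h.1.symm).1.symm
    · obtain ⟨t, rfl⟩ : ∃ t, y t = u := ⟨_, hτ u⟩
      induction hN.fw t with
      | base => exact .inl rfl
      | @up t t' a c b A B _ p ih =>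
        by_cases e : y t = y t'
        exacts [e ▸ ih, .inr ⟨y t, ⟨e, _, _, _, _, _, _, p.st, rfl, rfl⟩, by simp only [f3, f1 p, if_neg e]⟩]
  · obtain ⟨-, x, -, h⟩ := v.2.stab o fun _ _ _ _ _ _ _ => Subgroup.mem_top _
    have m : ∀ g : G, g • v = v → g ∈ ⊤ ⊓ MulAction.stabilizer G v.1 := fun g e => ⟨trivial, congrArg Subtype.val e⟩
    obtain ⟨k, l, p, Q, q⟩ := z2 a x (h a (m a j)).1 fun k l e => by
      obtain rfl := (h _ (zpow_mem (m a j) k)).2 l e
      exact ⟨by_contra fun c => tf a i (isOfFinOrder_iff_zpow_eq_one.2 ⟨k, c, by simpa using e⟩), rfl⟩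
    have x1 : x ≠ 1 := fun e => one_ne_zero ((h 1 (one_mem _)).2 1 (by simp [e]))
    exact ⟨Q, fun g e => cm x1 (cm p q (((h a (m a j)).1.zpow_left k).mul_left (.zpow_self ..))) (h g (m g e)).1.symm⟩

theorem rh_main (X : Sys R G T) (o : T) {ι : Type} [Nonempty ι] (H : ι → Subgroup G) (h1 : ∀ i, H i ≠ ⊤) (h2 : ∀ i, Infinite (H i))
    {Y : Finset G} (Q : Finset (Fr Y H)) (C : ℕ) (a : Function.Surjective (ep Y H)) (b : ∀ r ∈ Q, ep Y H r = 1)
    (c : ∀ W : List (Fr Y H), (∀ s ∈ W, Le Y H s) → ep Y H W.prod = 1 → ∃ L : List (Fr Y H), L.length ≤ C * (W.length + 1) ∧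
      (∀ c ∈ L, ∃ f, ∃ r ∈ Q, c = f * r * f⁻¹ ∨ c = f * r⁻¹ * f⁻¹) ∧ L.prod = W.prod) : Split G := by
  obtain ⟨p, q⟩ := rh Q C a b c
  obtain ⟨i⟩ := ‹Nonempty ι›
  obtain ⟨x, e⟩ := exists_ne (1 : H i)
  refine X.rh_split o p q (fun ⟨j, P⟩ => ?_) (a := x) (P := ⟨i, (1 : G)⟩) (by simpa using e)
    (congrArg (Sigma.mk i) (QuotientGroup.eq.2 (by simp)))
  obtain ⟨g, rfl⟩ := QuotientGroup.mk_surjective P
  obtain ⟨k, l⟩ := SetLike.exists_of_lt (lt_top_iff_ne_top.2 (h1 j))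
  exact ⟨g * k⁻¹ * g⁻¹, fun r => l.2 (by simpa using QuotientGroup.eq.1 (eq_of_heq (Sigma.mk.inj r).2))⟩

end Sys

end Pool.Agent.H.MP_8a4945_al
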